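import Pool.Agent.H47.TorGraph

/-!
# The counting argument
-/

set_option autoImplicit false

namespace Pool.Agent.H47

/-- Coordinates of the sample space. -/
inductive Idx where
  | rowA (i : Fin 3)
  | rowB (j : Fin 3)
  | leaf (i j : Fin 3)
deriving DecidableEq, Fintype

/-- edges of row `v` of hub `s` -/
def Row (s v : ℕ) : Set Ed := {e | (∃ c, e = .vert s c (2 * v + 1)) ∨ ∃ c, e = .slant s c v}

/-- edges of column `c` of hub `s` -/
def Col (s c : ℕ) : Set Ed := {e | ∃ t, e = .vert s c t}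

/-- edges of the tree path of zone `i, j` to the leaf determined by `x` -/
def TPath (m i j x : ℕ) : Set Ed := {e | ∃ q, e = .tree i j q (x / 2 ^ (6 * m - q - 1))}

/-- column of hub `i` used by the zone `i, j` for the root number `r` -/
def pcA (m i j r : ℕ) : ℕ := if j = i then NN m i + r else r

/-- column of hub `3 + j` used by the zone `i, j` for the leaf number `r` -/
def pcB (m i j r : ℕ) : ℕ := if i = (j + 1) % 3 then NN m (j + 3) + r else r

/-- the coordinate on which a part depends -/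
def co (i j : Fin 3) (p : Fin 5) : Idx :=
  if p = 0 then .rowA i else if p = 4 then .rowB j else .leaf i j

/-- The parts of the path from hub `i` to hub `3 + j`. -/
def part (m : ℕ) (i j : Fin 3) (p : Fin 5) (x : ℕ) : Set Ed :=
  {e | EV m e ∧ e ∈
    (if p = 0 then Row i (x / 2 ^ (6 * m - m * (i + 1)))
    else if p = 1 then Col i (pcA m i j (x / 2 ^ (6 * m - m * (i + 1))))
    else if p = 2 then TPath m i j x
    else if p = 3 then Col (j + 3) (pcB m i j (x / 2 ^ (6 * m - m * (j + 4))))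
    else Row (j + 3) (x / 2 ^ (6 * m - m * (j + 4))))}

/-- bound for the size of a part -/
def LL (m : ℕ) (i j : Fin 3) (p : Fin 5) : ℕ :=
  if p = 0 then 4 * NN m i else if p = 1 then 4 * NN m i else if p = 2 then 6 * m
    else 4 * NN m (j + 3)

/-- inverse of the probability that an edge belongs to a part -/
def nn (m : ℕ) (i j : Fin 3) (p : Fin 5) : ℕ :=
  if p = 0 then NN m i else if p = 1 then NN m i else if p = 2 then NN m i
    else NN m (j + 3)

lemma row_finite_card (m s v : ℕ) :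
    ({e | EV m e ∧ e ∈ Row s v} : Set Ed).Finite ∧
      ({e | EV m e ∧ e ∈ Row s v} : Set Ed).ncard ≤ 4 * NN m s := by
  classical
  set A : Finset Ed := (Finset.range (2 * NN m s)).image (fun c => Ed.vert s c (2 * v + 1)) ∪
    (Finset.range (2 * NN m s)).image (fun c => Ed.slant s c v)
  have hsub : ({e | EV m e ∧ e ∈ Row s v} : Set Ed) ⊆ (A : Set Ed) := by
    rintro e ⟨he, ⟨c, rfl⟩ | ⟨c, rfl⟩⟩
    · simp only [A, Finset.coe_union, Set.mem_union, Finset.mem_coe, Finset.mem_image,
        Finset.mem_range]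
      exact Or.inl ⟨c, he.2.1, rfl⟩
    · simp only [A, Finset.coe_union, Set.mem_union, Finset.mem_coe, Finset.mem_image,
        Finset.mem_range]
      exact Or.inr ⟨c, by have := he.2.1; omega, rfl⟩
  refine ⟨A.finite_toSet.subset hsub, ?_⟩
  calc _ ≤ (A : Set Ed).ncard := Set.ncard_le_ncard hsub A.finite_toSet
    _ = A.card := Set.ncard_coe_finset A
    _ ≤ _ := (Finset.card_union_le _ _)
    _ ≤ 2 * NN m s + 2 * NN m s := by
        apply Nat.add_le_add
        · exact Finset.card_image_le.trans (by simp)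
        · exact Finset.card_image_le.trans (by simp)
    _ = 4 * NN m s := by ring

lemma col_finite_card (m s c : ℕ) :
    ({e | EV m e ∧ e ∈ Col s c} : Set Ed).Finite ∧
      ({e | EV m e ∧ e ∈ Col s c} : Set Ed).ncard ≤ 4 * NN m s := by
  classical
  set A : Finset Ed := (Finset.range (2 * NN m s + 1)).image (fun t => Ed.vert s c t)
  have hsub : ({e | EV m e ∧ e ∈ Col s c} : Set Ed) ⊆ (A : Set Ed) := by
    rintro e ⟨he, ⟨t, rfl⟩⟩
    simp only [A, Finset.mem_coe, Finset.mem_image, Finset.mem_range]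
    exact ⟨t, by have := he.2.2.1; omega, rfl⟩
  refine ⟨A.finite_toSet.subset hsub, ?_⟩
  have hN := NN_pos m s
  calc _ ≤ (A : Set Ed).ncard := Set.ncard_le_ncard hsub A.finite_toSet
    _ = A.card := Set.ncard_coe_finset A
    _ ≤ 2 * NN m s + 1 := Finset.card_image_le.trans (by simp)
    _ ≤ 4 * NN m s := by omega

lemma tpath_finite_card (m i j x : ℕ) (hj : j < 3) :
    ({e | EV m e ∧ e ∈ TPath m i j x} : Set Ed).Finite ∧
      ({e | EV m e ∧ e ∈ TPath m i j x} : Set Ed).ncard ≤ 6 * m := by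
  classical
  set A : Finset Ed := (Finset.range (6 * m)).image
    (fun q => Ed.tree i j q (x / 2 ^ (6 * m - q - 1)))
  have hsub : ({e | EV m e ∧ e ∈ TPath m i j x} : Set Ed) ⊆ (A : Set Ed) := by
    rintro e ⟨he, ⟨q, rfl⟩⟩
    simp only [A, Finset.mem_coe, Finset.mem_image, Finset.mem_range]
    refine ⟨q, ?_, rfl⟩
    have h1 := he.2.2.2.1
    have h2 : m * (j + 4) ≤ m * 6 := Nat.mul_le_mul_left _ (by omega)
    omega
  refine ⟨A.finite_toSet.subset hsub, ?_⟩
  calc _ ≤ (A : Set Ed).ncard := Set.ncard_le_ncard hsub A.finite_toSet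
    _ = A.card := Set.ncard_coe_finset A
    _ ≤ 6 * m := Finset.card_image_le.trans (by simp)

lemma part_finite_card (m : ℕ) (i j : Fin 3) (p : Fin 5) (x : ℕ) :
    (part m i j p x).Finite ∧ (part m i j p x).ncard ≤ LL m i j p := by
  unfold part LL
  split_ifs
  · exact row_finite_card _ _ _
  · exact col_finite_card _ _ _
  · exact tpath_finite_card _ _ _ _ j.2
  · exact col_finite_card _ _ _
  · exact row_finite_card _ _ _

lemma card_div_eq (a d v : ℕ) :
    (Finset.univ.filter (fun x : Fin (2 ^ a) => x.val / 2 ^ d = v)).card ≤ 2 ^ d := by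
  have h : (Finset.univ.filter (fun x : Fin (2 ^ a) => x.val / 2 ^ d = v)).card ≤
      (Finset.Ico (v * 2 ^ d) ((v + 1) * 2 ^ d)).card := by
    apply Finset.card_le_card_of_injOn (fun x => x.val)
    · intro x hx
      simp only [Finset.coe_filter, Finset.mem_univ, true_and, Set.mem_ofPred_eq] at hx
      simp only [Finset.coe_Ico, Set.mem_Ico]
      have hd : 0 < 2 ^ d := by positivity
      constructor
      · rw [← hx]; exact Nat.div_mul_le_self _ _
      · rw [← hx]
        have h1 := Nat.div_add_mod x.val (2 ^ d)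
        have h2 := Nat.mod_lt x.val hd
        calc x.val = 2 ^ d * (x.val / 2 ^ d) + x.val % 2 ^ d := h1.symm
          _ < 2 ^ d * (x.val / 2 ^ d) + 2 ^ d := by omega
          _ = (x.val / 2 ^ d + 1) * 2 ^ d := by ring
    · intro x _ y _ h
      exact Fin.ext h
  rw [Nat.card_Ico] at h
  calc _ ≤ _ := h
    _ = 2 ^ d := by rw [add_mul]; omega


lemma part_prob_aux (a d n v : ℕ) (P : Fin (2 ^ a) → Prop) [DecidablePred P]
    (hn : 2 ^ d * n ≤ 2 ^ a) (hP : ∀ x, P x → x.val / 2 ^ d = v) :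
    (Finset.univ.filter (fun x : Fin (2 ^ a) => P x)).card * n ≤ 2 ^ a := by
  calc _ ≤ 2 ^ d * n := by
        apply Nat.mul_le_mul_right
        refine le_trans (Finset.card_le_card ?_) (card_div_eq a d v)
        intro x hx
        simp only [Finset.mem_filter, Finset.mem_univ, true_and] at hx ⊢
        exact hP x hx
    _ ≤ 2 ^ a := hn

lemma pow_mul_NN {m s : ℕ} (hs : s < 6) : 2 ^ (6 * m - m * (s + 1)) * NN m s ≤ 2 ^ (6 * m) := by
  unfold NN
  rw [← pow_add]
  apply Nat.pow_le_pow_right (by norm_num)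
  have : m * (s + 1) ≤ m * 6 := Nat.mul_le_mul_left _ (by omega)
  omega

open Classical in
lemma part_prob (m : ℕ) (i j : Fin 3) (p : Fin 5) (h : Ed) :
    (Finset.univ.filter (fun x : Fin (2 ^ (6 * m)) => h ∈ part m i j p x.val)).card *
      nn m i j p ≤ 2 ^ (6 * m) := by
  have hi := i.2
  have hj := j.2
  have e4 : (j : ℕ) + 4 = (j + 3) + 1 := by omega
  by_cases hne : (Finset.univ.filter (fun x : Fin (2 ^ (6 * m)) => h ∈ part m i j p x.val)).card = 0
  · rw [hne]; simp
  obtain ⟨x0, hx0⟩ := Finset.card_pos.mp (Nat.pos_of_ne_zero hne)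
  simp only [Finset.mem_filter, Finset.mem_univ, true_and] at hx0
  unfold nn
  unfold part at hx0 ⊢
  simp only [Set.mem_ofPred_eq] at hx0 ⊢
  split_ifs at hx0 ⊢ with h0 h1 h2 h3
  · -- row of hub i
    refine part_prob_aux _ (6 * m - m * (i + 1)) _ (x0.val / 2 ^ (6 * m - m * (i + 1))) _
      (pow_mul_NN (by omega)) ?_
    rintro x ⟨-, hx⟩
    obtain ⟨-, hx0⟩ := hx0
    rcases hx with ⟨c, rfl⟩ | ⟨c, rfl⟩ <;> rcases hx0 with ⟨c', hx0⟩ | ⟨c', hx0⟩ <;>
      simp at hx0 <;> omega
  · -- column of hub i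
    refine part_prob_aux _ (6 * m - m * (i + 1)) _ (x0.val / 2 ^ (6 * m - m * (i + 1))) _
      (pow_mul_NN (by omega)) ?_
    rintro x ⟨-, hx⟩
    obtain ⟨-, hx0⟩ := hx0
    obtain ⟨t, rfl⟩ := hx
    obtain ⟨t', hx0⟩ := hx0
    simp only [pcA] at hx0
    simp at hx0
    split_ifs at hx0 <;> omega
  · -- tree
    obtain ⟨hV, q, rfl⟩ := hx0
    have hq : m * (i + 1) ≤ q := hV.2.2.1
    have hq' : q < m * (j + 4) := hV.2.2.2.1
    have hjm : m * ((j : ℕ) + 4) ≤ m * 6 := Nat.mul_le_mul_left _ (by omega)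
    refine part_prob_aux _ (6 * m - q - 1) _ (x0.val / 2 ^ (6 * m - q - 1)) _ ?_ ?_
    · unfold NN
      rw [← pow_add]
      apply Nat.pow_le_pow_right (by norm_num)
      omega
    · rintro x ⟨-, hx⟩
      obtain ⟨q', hx⟩ := hx
      simp at hx
      obtain ⟨rfl, hx⟩ := hx
      exact hx.symm
  · -- column of hub 3 + j
    rw [e4] at hx0 ⊢
    refine part_prob_aux _ (6 * m - m * (j + 3 + 1)) _ (x0.val / 2 ^ (6 * m - m * (j + 3 + 1))) _
      (pow_mul_NN (by omega)) ?_
    rintro x ⟨-, hx⟩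
    obtain ⟨-, hx0⟩ := hx0
    obtain ⟨t, rfl⟩ := hx
    obtain ⟨t', hx0⟩ := hx0
    simp only [pcB] at hx0
    simp at hx0
    split_ifs at hx0 <;> omega
  · -- row of hub 3 + j
    rw [e4] at hx0 ⊢
    refine part_prob_aux _ (6 * m - m * (j + 3 + 1)) _ (x0.val / 2 ^ (6 * m - m * (j + 3 + 1))) _
      (pow_mul_NN (by omega)) ?_
    rintro x ⟨-, hx⟩
    obtain ⟨-, hx0⟩ := hx0
    rcases hx with ⟨c, rfl⟩ | ⟨c, rfl⟩ <;> rcases hx0 with ⟨c', hx0⟩ | ⟨c', hx0⟩ <;>
      simp at hx0 <;> omega


/-- Averaging over one coordinate. -/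
lemma card_update {ι α : Type} [Fintype ι] [DecidableEq ι] [Fintype α] [Nonempty α] (β : ι)
    (Bad : (ι → α) → Prop) [DecidablePred Bad] (n C : ℕ)
    (h : ∀ ω, (Finset.univ.filter (fun x : α => Bad (Function.update ω β x))).card * n ≤
      C * Fintype.card α) :
    (Finset.univ.filter Bad).card * n ≤ C * Fintype.card (ι → α) := by
  set S : Finset ((ι → α) × α) :=
    Finset.univ.filter (fun p : (ι → α) × α => Bad (Function.update p.1 β p.2)) with hS
  have h1 : S.card =
      ∑ ω : ι → α, (Finset.univ.filter (fun x : α => Bad (Function.update ω β x))).card := by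
    rw [hS, Finset.card_filter, Fintype.sum_prod_type]
    apply Finset.sum_congr rfl
    intro ω _
    rw [Finset.card_filter]
  have h2 : S.card = ((Finset.univ.filter Bad) ×ˢ (Finset.univ : Finset α)).card := by
    refine Finset.card_bij' (fun p _ => (Function.update p.1 β p.2, p.1 β))
      (fun p _ => (Function.update p.1 β p.2, p.1 β)) ?_ ?_ ?_ ?_
    · intro p hp
      simp only [hS, Finset.mem_filter, Finset.mem_univ, true_and] at hp
      simp [hp]
    · intro p hp
      simp only [Finset.mem_product, Finset.mem_filter, Finset.mem_univ, true_and,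
        and_true] at hp
      simp [hS, hp]
    · intro p _
      simp
    · intro p _
      simp
  rw [Finset.card_product, Finset.card_univ] at h2
  have h3 : S.card * n ≤ C * Fintype.card α * Fintype.card (ι → α) := by
    rw [h1, Finset.sum_mul]
    calc _ ≤ ∑ _ω : ι → α, C * Fintype.card α := Finset.sum_le_sum (fun ω _ => h ω)
      _ = _ := by rw [Finset.sum_const, Finset.card_univ, smul_eq_mul, mul_comm]
  rw [h2] at h3
  have hpos : 0 < Fintype.card α := Fintype.card_pos
  apply Nat.le_of_mul_le_mul_right _ hpos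
  calc _ = (Finset.univ.filter Bad).card * Fintype.card α * n := by ring
    _ ≤ C * Fintype.card α * Fintype.card (ι → α) := h3
    _ = _ := by ring

open Classical in
lemma bad_pair (m k : ℕ) (X : Ed → Ed → Prop)
    (hX : ∀ g, EV m g → {h | EV m h ∧ X g h}.Finite ∧ {h | EV m h ∧ X g h}.ncard ≤ k)
    (i j i' j' : Fin 3) (p p' : Fin 5) (hne : co i j p ≠ co i' j' p') :
    (Finset.univ.filter (fun ω : Idx → Fin (2 ^ (6 * m)) =>
      ∃ g ∈ part m i j p (ω (co i j p)), ∃ h ∈ part m i' j' p' (ω (co i' j' p')), X g h)).card *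
      nn m i' j' p' ≤ (k * LL m i j p) * Fintype.card (Idx → Fin (2 ^ (6 * m))) := by
  apply card_update (co i' j' p')
  intro ω
  obtain ⟨hSf, hSc⟩ := part_finite_card m i j p (ω (co i j p))
  -- the crossing partners of the first part
  have hfin : ∀ g : Ed, {h | EV m g ∧ EV m h ∧ X g h}.Finite := by
    intro g
    by_cases hg : EV m g
    · simpa [hg] using (hX g hg).1
    · simp [hg]
  set T : Finset (Fin (2 ^ (6 * m))) := hSf.toFinset.biUnion (fun g =>
    (hfin g).toFinset.biUnion (fun h =>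
      Finset.univ.filter (fun x : Fin (2 ^ (6 * m)) => h ∈ part m i' j' p' x.val))) with hT
  have hsub : (Finset.univ.filter (fun x : Fin (2 ^ (6 * m)) =>
      ∃ g ∈ part m i j p ((Function.update ω (co i' j' p') x) (co i j p)),
        ∃ h ∈ part m i' j' p' ((Function.update ω (co i' j' p') x) (co i' j' p')), X g h)) ⊆ T := by
    intro x hx
    simp only [Finset.mem_filter, Finset.mem_univ, true_and] at hx
    obtain ⟨g, hg, h, hh, hgh⟩ := hx
    rw [Function.update_of_ne hne] at hg
    rw [Function.update_self] at hh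
    simp only [hT, Finset.mem_biUnion, Set.Finite.mem_toFinset, Finset.mem_filter,
      Finset.mem_univ, true_and]
    exact ⟨g, hg, h, ⟨hg.1, hh.1, hgh⟩, hh⟩
  have hTc : T.card * nn m i' j' p' ≤ (k * LL m i j p) * 2 ^ (6 * m) := by
    calc T.card * nn m i' j' p' ≤
        (∑ g ∈ hSf.toFinset, ∑ h ∈ (hfin g).toFinset,
          (Finset.univ.filter (fun x : Fin (2 ^ (6 * m)) => h ∈ part m i' j' p' x.val)).card) *
            nn m i' j' p' := by
          apply Nat.mul_le_mul_right
          refine Finset.card_biUnion_le.trans ?_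
          exact Finset.sum_le_sum (fun g _ => Finset.card_biUnion_le)
      _ = ∑ g ∈ hSf.toFinset, ∑ h ∈ (hfin g).toFinset,
          (Finset.univ.filter (fun x : Fin (2 ^ (6 * m)) => h ∈ part m i' j' p' x.val)).card *
            nn m i' j' p' := by
          rw [Finset.sum_mul]
          apply Finset.sum_congr rfl
          intro g _
          rw [Finset.sum_mul]
      _ ≤ ∑ g ∈ hSf.toFinset, ∑ _h ∈ (hfin g).toFinset, 2 ^ (6 * m) := by
          apply Finset.sum_le_sum
          intro g _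
          apply Finset.sum_le_sum
          intro h _
          exact part_prob m i' j' p' h
      _ ≤ ∑ _g ∈ hSf.toFinset, k * 2 ^ (6 * m) := by
          apply Finset.sum_le_sum
          intro g hg
          rw [Finset.sum_const, smul_eq_mul]
          apply Nat.mul_le_mul_right
          have hgV : EV m g := ((Set.Finite.mem_toFinset hSf).mp hg).1
          have h1 := (hX g hgV).2
          rw [← Set.ncard_eq_toFinset_card _ (hfin g)]
          have h2 : {h | EV m g ∧ EV m h ∧ X g h} = {h | EV m h ∧ X g h} := by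
            ext h; simp [hgV]
          rw [h2]
          exact h1
      _ = hSf.toFinset.card * (k * 2 ^ (6 * m)) := by rw [Finset.sum_const, smul_eq_mul]
      _ ≤ LL m i j p * (k * 2 ^ (6 * m)) := by
          apply Nat.mul_le_mul_right
          rw [← Set.ncard_eq_toFinset_card _ hSf]
          exact hSc
      _ = _ := by ring
  rw [Fintype.card_fin]
  exact (Nat.mul_le_mul_right _ (Finset.card_le_card hsub)).trans hTc

open Classical in
lemma bad_single (m k : ℕ) (F : Set Ed) (hF : F.Finite) (hFc : F.ncard ≤ k)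
    (i' j' : Fin 3) (p' : Fin 5) :
    (Finset.univ.filter (fun ω : Idx → Fin (2 ^ (6 * m)) =>
      ∃ h ∈ part m i' j' p' (ω (co i' j' p')), h ∈ F)).card *
      nn m i' j' p' ≤ k * Fintype.card (Idx → Fin (2 ^ (6 * m))) := by
  apply card_update (co i' j' p')
  intro ω
  set T : Finset (Fin (2 ^ (6 * m))) := hF.toFinset.biUnion (fun h =>
      Finset.univ.filter (fun x : Fin (2 ^ (6 * m)) => h ∈ part m i' j' p' x.val)) with hT
  have hsub : (Finset.univ.filter (fun x : Fin (2 ^ (6 * m)) =>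
        ∃ h ∈ part m i' j' p' ((Function.update ω (co i' j' p') x) (co i' j' p')), h ∈ F)) ⊆ T := by
    intro x hx
    simp only [Finset.mem_filter, Finset.mem_univ, true_and] at hx
    obtain ⟨h, hh, hgh⟩ := hx
    rw [Function.update_self] at hh
    simp only [hT, Finset.mem_biUnion, Set.Finite.mem_toFinset, Finset.mem_filter,
      Finset.mem_univ, true_and]
    exact ⟨h, hgh, hh⟩
  have hTc : T.card * nn m i' j' p' ≤ k * 2 ^ (6 * m) := by
    calc T.card * nn m i' j' p' ≤
        (∑ h ∈ hF.toFinset,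
          (Finset.univ.filter (fun x : Fin (2 ^ (6 * m)) => h ∈ part m i' j' p' x.val)).card) *
            nn m i' j' p' := by
          apply Nat.mul_le_mul_right
          exact Finset.card_biUnion_le
      _ = ∑ h ∈ hF.toFinset,
          (Finset.univ.filter (fun x : Fin (2 ^ (6 * m)) => h ∈ part m i' j' p' x.val)).card *
            nn m i' j' p' := by
          rw [Finset.sum_mul]
      _ ≤ ∑ _h ∈ hF.toFinset, 2 ^ (6 * m) := by
          apply Finset.sum_le_sum
          intro h _
          exact part_prob m i' j' p' h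
      _ = hF.toFinset.card * 2 ^ (6 * m) := by rw [Finset.sum_const, smul_eq_mul]
      _ ≤ k * 2 ^ (6 * m) := by
          apply Nat.mul_le_mul_right
          rw [← Set.ncard_eq_toFinset_card _ hF]
          exact hFc
  rw [Fintype.card_fin]
  exact (Nat.mul_le_mul_right _ (Finset.card_le_card hsub)).trans hTc

lemma NN_mono {m s s' : ℕ} (h : s < s') : NN m s * 2 ^ m ≤ NN m s' := by
  unfold NN
  rw [← pow_add]
  apply Nat.pow_le_pow_right (by norm_num)
  have : m * (s + 1) + m = m * (s + 1 + 1) := by ring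
  rw [this]
  exact Nat.mul_le_mul_left _ (by omega)

lemma le_NN (m s : ℕ) : 2 ^ m ≤ NN m s := by
  unfold NN
  apply Nat.pow_le_pow_right (by norm_num)
  exact Nat.le_mul_of_pos_right _ (by omega)

lemma le_nn (m : ℕ) (i j : Fin 3) (p : Fin 5) : 2 ^ m ≤ nn m i j p := by
  unfold nn
  split_ifs <;> exact le_NN _ _

lemma scale {m : ℕ} (hm : 0 < m) (i j i' j' : Fin 3) (p p' : Fin 5) (hi : i ≠ i') (hj : j ≠ j') :
    LL m i j p * 2 ^ m ≤ 6 * m * nn m i' j' p' ∨ LL m i' j' p' * 2 ^ m ≤ 6 * m * nn m i j p := by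
  by_cases hp : p = 2
  · left
    subst hp
    have : LL m i j 2 = 6 * m := by simp [LL]
    rw [this]
    exact Nat.mul_le_mul_left _ (le_nn _ _ _ _)
  by_cases hp' : p' = 2
  · right
    subst hp'
    have : LL m i' j' 2 = 6 * m := by simp [LL]
    rw [this]
    exact Nat.mul_le_mul_left _ (le_nn _ _ _ _)
  have key : ∀ (i j : Fin 3) (p : Fin 5), p ≠ 2 → ∃ s : ℕ, (s = i ∨ s = j + 3) ∧
      LL m i j p = 4 * NN m s ∧ nn m i j p = NN m s := by
    intro i j p hp
    unfold LL nn
    split_ifs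
    · exact ⟨i, Or.inl rfl, rfl, rfl⟩
    · exact ⟨i, Or.inl rfl, rfl, rfl⟩
    · exact ⟨j + 3, Or.inr rfl, rfl, rfl⟩
  obtain ⟨s, hs, h1, h2⟩ := key i j p hp
  obtain ⟨s', hs', h1', h2'⟩ := key i' j' p' hp'
  rw [h1, h2, h1', h2']
  have hi' : (i : ℕ) ≠ i' := fun h => hi (Fin.ext h)
  have hj' : (j : ℕ) ≠ j' := fun h => hj (Fin.ext h)
  have := i.2
  have := i'.2
  have hss : s ≠ s' := by omega
  have main : ∀ s s' : ℕ, s < s' → 4 * NN m s * 2 ^ m ≤ 6 * m * NN m s' := by
    intro s s' h
    calc 4 * NN m s * 2 ^ m = 4 * (NN m s * 2 ^ m) := by ring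
      _ ≤ 4 * NN m s' := Nat.mul_le_mul_left _ (NN_mono h)
      _ ≤ 6 * m * NN m s' := Nat.mul_le_mul_right _ (by omega)
  rcases lt_or_gt_of_ne hss with h | h
  · exact Or.inl (main _ _ h)
  · exact Or.inr (main _ _ h)

lemma co_ne {i j i' j' : Fin 3} (p p' : Fin 5) (hi : i ≠ i') (hj : j ≠ j') :
    co i j p ≠ co i' j' p' := by
  unfold co
  split_ifs <;> simp [hi, hj]

/-- There is a choice of the six rows and nine leaves without bad events. -/
theorem exists_good {m k : ℕ} (hm : 0 < m) (hk : 12150 * k * m + 45 * k < 2 ^ m)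
    (X : Ed → Ed → Prop) (hsymm : ∀ g h, X g h → X h g)
    (hX : ∀ g, EV m g → {h | EV m h ∧ X g h}.Finite ∧ {h | EV m h ∧ X g h}.ncard ≤ k)
    (F : Set Ed) (hF : F.Finite) (hFc : F.ncard ≤ k) :
    ∃ ω : Idx → Fin (2 ^ (6 * m)),
      (∀ i j p, ∀ e ∈ part m i j p (ω (co i j p)), e ∉ F) ∧
      (∀ i j i' j' p p', i ≠ i' → j ≠ j' → ∀ g ∈ part m i j p (ω (co i j p)),
        ∀ h ∈ part m i' j' p' (ω (co i' j' p')), ¬ X g h) := by
  classical
  by_contra hcon
  push Not at hcon
  set M := Fintype.card (Idx → Fin (2 ^ (6 * m))) with hM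
  set BP : (Fin 3 × Fin 3 × Fin 3 × Fin 3 × Fin 5 × Fin 5) → Finset (Idx → Fin (2 ^ (6 * m))) :=
    fun q => Finset.univ.filter (fun ω => q.1 ≠ q.2.2.1 ∧ q.2.1 ≠ q.2.2.2.1 ∧
      ∃ g ∈ part m q.1 q.2.1 q.2.2.2.2.1 (ω (co q.1 q.2.1 q.2.2.2.2.1)),
      ∃ h ∈ part m q.2.2.1 q.2.2.2.1 q.2.2.2.2.2 (ω (co q.2.2.1 q.2.2.2.1 q.2.2.2.2.2)), X g h)
    with hBP
  set BS : (Fin 3 × Fin 3 × Fin 5) → Finset (Idx → Fin (2 ^ (6 * m))) :=
    fun q => Finset.univ.filter (fun ω => ∃ h ∈ part m q.1 q.2.1 q.2.2 (ω (co q.1 q.2.1 q.2.2)),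
      h ∈ F) with hBS
  have hcover : (Finset.univ : Finset (Idx → Fin (2 ^ (6 * m)))) ⊆
      Finset.univ.biUnion BP ∪ Finset.univ.biUnion BS := by
    intro ω _
    rw [Finset.mem_union, Finset.mem_biUnion, Finset.mem_biUnion]
    by_cases h1 : ∀ i j p, ∀ e ∈ part m i j p (ω (co i j p)), e ∉ F
    · left
      obtain ⟨i, j, i', j', p, p', hi, hj, g, hg, h, hh, hgh⟩ := hcon ω h1
      refine ⟨(i, j, i', j', p, p'), Finset.mem_univ _, ?_⟩
      simp only [hBP, Finset.mem_filter, Finset.mem_univ, true_and]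
      exact ⟨hi, hj, g, hg, h, hh, hgh⟩
    · right
      push Not at h1
      obtain ⟨i, j, p, e, he, heF⟩ := h1
      refine ⟨(i, j, p), Finset.mem_univ _, ?_⟩
      simp only [hBS, Finset.mem_filter, Finset.mem_univ, true_and]
      exact ⟨e, he, heF⟩
  have hBPc : ∀ q, (BP q).card * 2 ^ m ≤ (6 * k * m) * M := by
    rintro ⟨i, j, i', j', p, p'⟩
    by_cases hi : i = i'
    · have : BP (i, j, i', j', p, p') = ∅ := by
        simp [hBP, hi]
      rw [this]; simp
    by_cases hj : j = j'
    · have : BP (i, j, i', j', p, p') = ∅ := by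
        simp [hBP, hj]
      rw [this]; simp
    have aux : ∀ (a n L : ℕ), 0 < n → a * n ≤ (k * L) * M → L * 2 ^ m ≤ 6 * m * n →
        a * 2 ^ m ≤ (6 * k * m) * M := by
      intro a n L hn h1 h2
      apply Nat.le_of_mul_le_mul_right _ hn
      calc a * 2 ^ m * n = (a * n) * 2 ^ m := by ring
        _ ≤ (k * L * M) * 2 ^ m := Nat.mul_le_mul_right _ h1
        _ = k * M * (L * 2 ^ m) := by ring
        _ ≤ k * M * (6 * m * n) := Nat.mul_le_mul_left _ h2
        _ = 6 * k * m * M * n := by ring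
    have hnpos : ∀ i j p, 0 < nn m i j p := fun i j p =>
      lt_of_lt_of_le (by positivity) (le_nn m i j p)
    rcases scale hm i j i' j' p p' hi hj with h | h
    · refine aux _ _ _ (hnpos i' j' p') ?_ h
      refine le_trans (Nat.mul_le_mul_right _ (Finset.card_le_card ?_))
        (bad_pair m k X hX i j i' j' p p' (co_ne p p' hi hj))
      intro ω hω
      simp only [hBP, Finset.mem_filter, Finset.mem_univ, true_and] at hω ⊢
      exact hω.2.2
    · refine aux _ _ _ (hnpos i j p) ?_ h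
      refine le_trans (Nat.mul_le_mul_right _ (Finset.card_le_card ?_))
        (bad_pair m k X hX i' j' i j p' p (co_ne p' p (Ne.symm hi) (Ne.symm hj)))
      intro ω hω
      simp only [hBP, Finset.mem_filter, Finset.mem_univ, true_and] at hω ⊢
      obtain ⟨-, -, g, hg, h, hh, hgh⟩ := hω
      exact ⟨h, hh, g, hg, hsymm _ _ hgh⟩
  have hBSc : ∀ q, (BS q).card * 2 ^ m ≤ k * M := by
    rintro ⟨i, j, p⟩
    refine le_trans (Nat.mul_le_mul_left _ (le_nn m i j p)) ?_
    have := bad_single m k F hF hFc i j p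
    convert this using 3
  have htot : M * 2 ^ m ≤ (12150 * k * m + 45 * k) * M := by
    have h1 : M ≤ (∑ q, (BP q).card) + ∑ q, (BS q).card := by
      calc M = (Finset.univ : Finset (Idx → Fin (2 ^ (6 * m)))).card := by rw [hM, Finset.card_univ]
        _ ≤ _ := Finset.card_le_card hcover
        _ ≤ _ := Finset.card_union_le _ _
        _ ≤ _ := Nat.add_le_add Finset.card_biUnion_le Finset.card_biUnion_le
    calc M * 2 ^ m ≤ ((∑ q, (BP q).card) + ∑ q, (BS q).card) * 2 ^ m := Nat.mul_le_mul_right _ h1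
      _ = (∑ q, (BP q).card * 2 ^ m) + ∑ q, (BS q).card * 2 ^ m := by
          rw [add_mul, Finset.sum_mul, Finset.sum_mul]
      _ ≤ (∑ _q : (Fin 3 × Fin 3 × Fin 3 × Fin 3 × Fin 5 × Fin 5), (6 * k * m) * M) +
          ∑ _q : (Fin 3 × Fin 3 × Fin 5), k * M :=
          Nat.add_le_add (Finset.sum_le_sum (fun q _ => hBPc q))
            (Finset.sum_le_sum (fun q _ => hBSc q))
      _ = (12150 * k * m + 45 * k) * M := by
          rw [Finset.sum_const, Finset.sum_const, Finset.card_univ, Finset.card_univ]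
          simp only [Fintype.card_prod, Fintype.card_fin, smul_eq_mul]
          ring
  have hMpos : 0 < M := Fintype.card_pos
  have : 2 ^ m ≤ 12150 * k * m + 45 * k := by
    apply Nat.le_of_mul_le_mul_right _ hMpos
    calc 2 ^ m * M = M * 2 ^ m := by ring
      _ ≤ _ := htot
  omega

end Pool.Agent.H47
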