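import Mathlib

/-!
# Drawings of graphs, toroidal graphs, `k`-planar graphs and the statement `P(d,k)`
-/

set_option autoImplicit false

namespace Pool.Agent.H47

/-- A drawing of a simple graph `G` in a topological space `X`: the vertices are mapped to
distinct points and every edge `uv` is mapped to a simple curve (an injective continuous image
of `[0, 1]`) joining the images of `u` and `v` whose interior contains no vertex image. -/
structure Drawing {V : Type*} (G : SimpleGraph V) (X : Type*) [TopologicalSpace X] where
  /-- the image of a vertex -/
  pt : V → X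
  pt_injective : Function.Injective pt
  /-- the curve of an edge -/
  curve : G.edgeSet → unitInterval → X
  curve_continuous : ∀ e, Continuous (curve e)
  curve_injective : ∀ e, Function.Injective (curve e)
  curve_ends : ∀ e, s(curve e 0, curve e 1) = Sym2.map pt e.1
  curve_avoids : ∀ e t, t ∈ Set.Ioo (0 : unitInterval) 1 → curve e t ∉ Set.range pt

/-- The interior of the curve of an edge: the curve without its two end points. -/
def Drawing.interior {V : Type*} {G : SimpleGraph V} {X : Type*} [TopologicalSpace X]
    (D : Drawing G X) (e : G.edgeSet) : Set X :=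
  D.curve e '' Set.Ioo (0 : unitInterval) 1

/-- `G` is toroidal: it can be drawn on the torus `(ℝ/ℤ) × (ℝ/ℤ)` without crossings. -/
def Toroidal {V : Type*} (G : SimpleGraph V) : Prop :=
  ∃ D : Drawing G (UnitAddCircle × UnitAddCircle),
    ∀ e f : G.edgeSet, e ≠ f → Disjoint (D.interior e) (D.interior f)

/-- `G` is `k`-planar: it has a drawing in the plane `ℝ × ℝ` in which any two edges share only
finitely many interior points and in which every edge `e` has at most `k` crossings, a crossing
on `e` being a pair of another edge `f` and a common point of the interiors of `e` and `f`. -/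
def KPlanar {V : Type*} (k : ℕ) (G : SimpleGraph V) : Prop :=
  ∃ D : Drawing G (ℝ × ℝ),
    (∀ e f : G.edgeSet, e ≠ f → (D.interior e ∩ D.interior f).Finite) ∧
    ∀ e : G.edgeSet,
      {c : G.edgeSet × (ℝ × ℝ) | c.1 ≠ e ∧ c.2 ∈ D.interior e ∩ D.interior c.1}.encard ≤ k

/-- The statement `P(d, k)`: from every finite toroidal graph of maximum degree at most `d` one
can delete at most `k` edges such that the remaining graph is `k`-planar. -/
def PStatement (d k : ℕ) : Prop :=
  ∀ (V : Type) [Finite V] (G : SimpleGraph V), Toroidal G →
    (∀ v : V, (G.neighborSet v).ncard ≤ d) →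
    ∃ F : Set (Sym2 V), F ⊆ G.edgeSet ∧ F.ncard ≤ k ∧ KPlanar k (G.deleteEdges F)

end Pool.Agent.H47
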