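import Mathlib

/-!
# The graphs `G m`

A fat toroidal `K₃,₃`: six brick-wall hubs of widely different sizes, joined by nine zones made
of binary trees.
-/

set_option autoImplicit false

namespace Pool.Agent.H47

/-- Size of hub `s` (`s = 0,1,2` are the hubs of the first class, `s = 3,4,5` those of the
second class). -/
def NN (m s : ℕ) : ℕ := 2 ^ (m * (s + 1))

/-- Ambient vertices. `hub s c t`: column `c`, level `t` of hub `s`.
`zone i j q c`: the `c`-th node of depth `q` of the zone between hub `i` and hub `3 + j`. -/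
inductive W where
  | hub (s c t : ℕ)
  | zone (i j q c : ℕ)

/-- Ambient edges. -/
inductive Ed where
  | vert (s c t : ℕ)
  | slant (s c v : ℕ)
  | tree (i j q c : ℕ)

/-- The vertex below column `c` of hub `s`. -/
def botW (m s c : ℕ) : W :=
  if s < 3 then W.zone s ((s + 1) % 3) (m * (s + 1)) c
  else if c < NN m s then W.zone (s - 3) (s - 3) (m * (s + 1)) c
  else W.zone ((s - 2) % 3) (s - 3) (m * (s + 1)) (c - NN m s)

/-- The vertex above column `c` of hub `s`. -/
def topW (m s c : ℕ) : W :=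
  if s < 3 then
    (if c < NN m s then W.zone s ((s + 2) % 3) (m * (s + 1)) c
    else W.zone s s (m * (s + 1)) (c - NN m s))
  else W.zone ((s - 1) % 3) (s - 3) (m * (s + 1)) c

/-- First end of an edge. -/
def lo (m : ℕ) : Ed → W
  | .vert s c t => if t = 0 then botW m s c else .hub s c t
  | .slant s c v => .hub s (c + 1) (2 * v + 1)
  | .tree i j q c => .zone i j q (c / 2)

/-- Second end of an edge. -/
def hi (m : ℕ) : Ed → W
  | .vert s c t => if t = 2 * NN m s then topW m s c else .hub s c (t + 1)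
  | .slant s c v => .hub s c (2 * v + 2)
  | .tree i j q c => .zone i j (q + 1) c

/-- The edges which are really present. -/
def EV (m : ℕ) : Ed → Prop
  | .vert s c t => s < 6 ∧ c < 2 * NN m s ∧ t ≤ 2 * NN m s ∧ (t = 0 → s < 3 → c < NN m s) ∧
      (t = 2 * NN m s → 3 ≤ s → c < NN m s)
  | .slant s c v => s < 6 ∧ c + 1 < 2 * NN m s ∧ v < NN m s
  | .tree i j q c => i < 3 ∧ j < 3 ∧ m * (i + 1) ≤ q ∧ q < m * (j + 4) ∧ c < 2 ^ (q + 1)

/-- The vertices which are really present. -/
def WV (m : ℕ) : W → Prop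
  | .hub s c t => s < 6 ∧ c < 2 * NN m s ∧ 1 ≤ t ∧ t ≤ 2 * NN m s
  | .zone i j q c => i < 3 ∧ j < 3 ∧ m * (i + 1) ≤ q ∧ q ≤ m * (j + 4) ∧ c < 2 ^ q

lemma NN_pos (m s : ℕ) : 0 < NN m s := by unfold NN; positivity

lemma exp_lt {m : ℕ} (hm : 0 < m) {i j : ℕ} (hi : i < 3) : m * (i + 1) < m * (j + 4) := by
  apply Nat.mul_lt_mul_of_pos_left _ hm
  omega

lemma WV_botW {m s c : ℕ} (hm : 0 < m) (hs : s < 6) (hc : c < 2 * NN m s)
    (h : s < 3 → c < NN m s) : WV m (botW m s c) := by
  unfold botW
  split_ifs with h1 h2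
  · refine ⟨h1, Nat.mod_lt _ (by norm_num), le_refl _, ?_, h h1⟩
    exact (exp_lt hm h1).le
  · refine ⟨by omega, by omega, Nat.mul_le_mul_left _ (by omega), Nat.mul_le_mul_left _ (by omega), h2⟩
  · refine ⟨Nat.mod_lt _ (by norm_num), by omega, Nat.mul_le_mul_left _ (by omega),
      Nat.mul_le_mul_left _ (by omega), ?_⟩
    have : c - NN m s < NN m s := by omega
    exact this

lemma WV_topW {m s c : ℕ} (hm : 0 < m) (hs : s < 6) (hc : c < 2 * NN m s)
    (h : 3 ≤ s → c < NN m s) : WV m (topW m s c) := by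
  unfold topW
  split_ifs with h1 h2
  · refine ⟨h1, Nat.mod_lt _ (by norm_num), le_refl _, ?_, h2⟩
    exact (exp_lt hm h1).le
  · refine ⟨h1, h1, le_refl _, (exp_lt hm h1).le, ?_⟩
    have : c - NN m s < NN m s := by omega
    exact this
  · refine ⟨Nat.mod_lt _ (by norm_num), by omega, Nat.mul_le_mul_left _ (by omega),
      Nat.mul_le_mul_left _ (by omega), h (by omega)⟩

lemma WV_lo {m : ℕ} (hm : 0 < m) {e : Ed} (he : EV m e) : WV m (lo m e) := by
  cases e with
  | vert s c t =>
    obtain ⟨hs, hc, ht, h0, h1⟩ := he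
    simp only [lo]
    split_ifs with h
    · exact WV_botW hm hs hc (h0 h)
    · exact ⟨hs, hc, by omega, ht⟩
  | slant s c v =>
    obtain ⟨hs, hc, hv⟩ := he
    exact ⟨hs, hc, by omega, by omega⟩
  | tree i j q c =>
    obtain ⟨hi, hj, hq, hq', hc⟩ := he
    refine ⟨hi, hj, hq, hq'.le, ?_⟩
    rw [pow_succ] at hc
    omega

lemma WV_hi {m : ℕ} (hm : 0 < m) {e : Ed} (he : EV m e) : WV m (hi m e) := by
  cases e with
  | vert s c t =>
    obtain ⟨hs, hc, ht, h0, h1⟩ := he
    simp only [hi]
    split_ifs with h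
    · exact WV_topW hm hs hc (h1 h)
    · exact ⟨hs, hc, by omega, by omega⟩
  | slant s c v =>
    obtain ⟨hs, hc, hv⟩ := he
    exact ⟨hs, by omega, by omega, by omega⟩
  | tree i j q c =>
    obtain ⟨hi, hj, hq, hq', hc⟩ := he
    exact ⟨hi, hj, by omega, hq', hc⟩

/-- Distinct (real) edges have distinct pairs of ends, in any orientation. -/
lemma edge_inj {m : ℕ} {e f : Ed} (he : EV m e) (hf : EV m f)
    (h : s(lo m e, hi m e) = s(lo m f, hi m f)) : e = f := by
  have hN : ∀ s, 0 < NN m s := NN_pos m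
  rw [Sym2.eq_iff] at h
  cases e with
  | vert s c t =>
    have := hN s
    cases f with
    | vert s' c' t' =>
      have := hN s'
      simp only [lo, hi, botW, topW] at h
      simp only [EV] at he hf
      rcases h with ⟨h1, h2⟩ | ⟨h1, h2⟩ <;> split_ifs at h1 h2 <;> simp at h1 h2 ⊢ <;> omega
    | slant s' c' v' =>
      have := hN s'
      simp only [lo, hi, botW, topW] at h
      simp only [EV] at he hf
      rcases h with ⟨h1, h2⟩ | ⟨h1, h2⟩ <;> split_ifs at h1 h2 <;> simp at h1 h2 ⊢ <;> omega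
    | tree i' j' q' c' =>
      simp only [lo, hi, botW, topW] at h
      simp only [EV] at he hf
      rcases h with ⟨h1, h2⟩ | ⟨h1, h2⟩ <;> split_ifs at h1 h2 <;> simp at h1 h2 ⊢ <;> omega
  | slant s c v =>
    have := hN s
    cases f with
    | vert s' c' t' =>
      have := hN s'
      simp only [lo, hi, botW, topW] at h
      simp only [EV] at he hf
      rcases h with ⟨h1, h2⟩ | ⟨h1, h2⟩ <;> split_ifs at h1 h2 <;> simp at h1 h2 ⊢ <;> omega
    | slant s' c' v' =>
      simp only [lo, hi] at h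
      simp only [EV] at he hf
      rcases h with ⟨h1, h2⟩ | ⟨h1, h2⟩ <;> simp at h1 h2 ⊢ <;> omega
    | tree i' j' q' c' =>
      simp only [lo, hi] at h
      rcases h with ⟨h1, h2⟩ | ⟨h1, h2⟩ <;> simp at h1 h2
  | tree i j q c =>
    cases f with
    | vert s' c' t' =>
      simp only [lo, hi, botW, topW] at h
      simp only [EV] at he hf
      rcases h with ⟨h1, h2⟩ | ⟨h1, h2⟩ <;> split_ifs at h1 h2 <;> simp at h1 h2 ⊢ <;> omega
    | slant s' c' v' =>
      simp only [lo, hi] at h
      rcases h with ⟨h1, h2⟩ | ⟨h1, h2⟩ <;> simp at h1 h2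
    | tree i' j' q' c' =>
      simp only [lo, hi] at h
      simp only [EV] at he hf
      rcases h with ⟨h1, h2⟩ | ⟨h1, h2⟩ <;> simp at h1 h2 ⊢ <;> omega


lemma lo_ne_hi {m : ℕ} {e : Ed} (he : EV m e) : lo m e ≠ hi m e := by
  have hN : ∀ s, 0 < NN m s := NN_pos m
  cases e with
  | vert s c t =>
    have := hN s
    simp only [EV] at he
    simp only [lo, hi, botW, topW]
    split_ifs <;> simp <;> omega
  | slant s c v => simp [lo, hi]
  | tree i j q c => simp [lo, hi]

/-- The graph `G m`. -/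
def GG (m : ℕ) : SimpleGraph {w : W // WV m w} where
  Adj u v := ∃ e, EV m e ∧ s(lo m e, hi m e) = s(u.1, v.1)
  symm := ⟨by
    rintro u v ⟨e, he, h⟩
    exact ⟨e, he, by rw [h]; exact Sym2.eq_swap⟩⟩
  loopless := ⟨by
    rintro u ⟨e, he, h⟩
    have := lo_ne_hi he
    rw [Sym2.eq_iff] at h
    rcases h with ⟨h1, h2⟩ | ⟨h1, h2⟩ <;> exact this (h1.trans h2.symm)⟩

/-- The neighbour of a root of a zone in its hub. -/
def rootHub (m i j c : ℕ) : W :=
  if j = (i + 1) % 3 then .hub i c 1
  else if j = (i + 2) % 3 then .hub i c (2 * NN m i) else .hub i (NN m i + c) (2 * NN m i)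

/-- The neighbour of a leaf of a zone in its hub. -/
def leafHub (m i j c : ℕ) : W :=
  if i = (j + 2) % 3 then .hub (j + 3) c (2 * NN m (j + 3))
  else if i = (j + 1) % 3 then .hub (j + 3) (NN m (j + 3) + c) 1 else .hub (j + 3) c 1

/-- A list of three vertices containing all neighbours of a vertex. -/
def nb (m : ℕ) : W → List W
  | .hub s c t =>
    [if t = 1 then botW m s c else .hub s c (t - 1),
     if t = 2 * NN m s then topW m s c else .hub s c (t + 1),
     if t % 2 = 1 then .hub s (c - 1) (t + 1) else .hub s (c + 1) (t - 1)]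
  | .zone i j q c =>
    [if q = m * (i + 1) then rootHub m i j c else .zone i j (q - 1) (c / 2),
     if q = m * (j + 4) then leafHub m i j c else .zone i j (q + 1) (2 * c),
     .zone i j (q + 1) (2 * c + 1)]

lemma hi_mem_nb {m : ℕ} {e : Ed} (he : EV m e) : hi m e ∈ nb m (lo m e) := by
  have hN : ∀ s, 0 < NN m s := NN_pos m
  cases e with
  | vert s c t =>
    have := hN s
    simp only [EV] at he
    obtain ⟨hs, hc, ht, h0, h1⟩ := he
    by_cases ht0 : t = 0
    · subst ht0
      have e1 : hi m (.vert s c 0) = .hub s c 1 := by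
        simp only [hi]; rw [if_neg (by omega)]
      rw [e1]
      simp only [lo, if_true, botW]
      split_ifs with h2 h3
      · simp [nb, rootHub]
      · have : s - 3 + 4 = s + 1 := by omega
        have e3 : s - 3 + 3 = s := by omega
        have e4 : s - 3 ≠ (s - 3 + 2) % 3 := by omega
        have e5 : s - 3 ≠ (s - 3 + 1) % 3 := by omega
        simp only [nb, this, if_true, leafHub, e3, if_neg e4, if_neg e5]
        simp
      · have : s - 3 + 4 = s + 1 := by omega
        have e3 : s - 3 + 3 = s := by omega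
        have e4 : (s - 2) % 3 ≠ (s - 3 + 2) % 3 := by omega
        have e5 : (s - 2) % 3 = (s - 3 + 1) % 3 := by omega
        have e6 : NN m s + (c - NN m s) = c := by omega
        simp only [nb, this, if_true, leafHub, e3, if_neg e4, if_pos e5, e6]
        simp
    · have e1 : lo m (.vert s c t) = .hub s c t := by
        simp only [lo]; rw [if_neg ht0]
      rw [e1]
      simp [nb, hi]
  | slant s c v =>
    simp only [lo, hi, nb]
    have : (2 * v + 1) % 2 = 1 := by omega
    simp [this]
  | tree i j q c =>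
    simp only [EV] at he
    simp only [lo, hi, nb]
    have h1 : q ≠ m * (j + 4) := by omega
    rw [if_neg h1]
    rcases Nat.even_or_odd c with ⟨d, hd⟩ | ⟨d, hd⟩
    · have : 2 * (c / 2) = c := by omega
      simp [this]
    · have : 2 * (c / 2) + 1 = c := by omega
      simp [this]

lemma lo_mem_nb {m : ℕ} {e : Ed} (he : EV m e) : lo m e ∈ nb m (hi m e) := by
  have hN : ∀ s, 0 < NN m s := NN_pos m
  cases e with
  | vert s c t =>
    have := hN s
    simp only [EV] at he
    obtain ⟨hs, hc, ht, h0, h1⟩ := he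
    by_cases ht0 : t = 2 * NN m s
    · have e1 : lo m (.vert s c t) = .hub s c t := by
        simp only [lo]; rw [if_neg (by omega)]
      rw [e1]
      simp only [hi, if_pos ht0, topW]
      split_ifs with h2 h3
      · have e4 : (s + 2) % 3 ≠ (s + 1) % 3 := by omega
        simp [nb, rootHub, e4, ht0]
      · have e4 : s ≠ (s + 1) % 3 := by omega
        have e5 : s ≠ (s + 2) % 3 := by omega
        have e6 : NN m s + (c - NN m s) = c := by omega
        simp only [nb, if_true, rootHub, if_neg e4, if_neg e5, e6, ht0]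
        simp
      · have : s - 3 + 4 = s + 1 := by omega
        have e3 : s - 3 + 3 = s := by omega
        have e4 : (s - 1) % 3 = (s - 3 + 2) % 3 := by omega
        simp only [nb, this, if_true, leafHub, e3, if_pos e4, ht0]
        simp
    · have e1 : hi m (.vert s c t) = .hub s c (t + 1) := by
        simp only [hi]; rw [if_neg ht0]
      rw [e1]
      by_cases h00 : t = 0
      · subst h00
        simp [nb, lo]
      · simp [nb, lo, h00]
  | slant s c v =>
    simp only [lo, hi, nb]
    have : (2 * v + 2) % 2 ≠ 1 := by omega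
    rw [if_neg this]
    simp
  | tree i j q c =>
    simp only [EV] at he
    simp only [lo, hi, nb]
    have h1 : q + 1 ≠ m * (i + 1) := by omega
    rw [if_neg h1]
    simp

lemma finite_WV (m : ℕ) : {w : W | WV m w}.Finite := by
  set B := 2 * 2 ^ (m * 6) + m * 6 + 10 with hB
  have hNB : ∀ s, s < 6 → 2 * NN m s ≤ 2 * 2 ^ (m * 6) := by
    intro s hs
    unfold NN
    apply Nat.mul_le_mul_left
    apply Nat.pow_le_pow_right (by norm_num)
    apply Nat.mul_le_mul_left
    omega
  have h1 : ((fun p : ℕ × ℕ × ℕ × ℕ => W.hub p.1 p.2.1 p.2.2.1) ''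
      (Set.Iic B ×ˢ Set.Iic B ×ˢ Set.Iic B ×ˢ Set.Iic B)).Finite := by
    apply Set.Finite.image
    exact (Set.finite_Iic B).prod ((Set.finite_Iic B).prod
      ((Set.finite_Iic B).prod (Set.finite_Iic B)))
  have h2 : ((fun p : ℕ × ℕ × ℕ × ℕ => W.zone p.1 p.2.1 p.2.2.1 p.2.2.2) ''
      (Set.Iic B ×ˢ Set.Iic B ×ˢ Set.Iic B ×ˢ Set.Iic B)).Finite := by
    apply Set.Finite.image
    exact (Set.finite_Iic B).prod ((Set.finite_Iic B).prod
      ((Set.finite_Iic B).prod (Set.finite_Iic B)))
  apply (h1.union h2).subset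
  rintro (⟨s, c, t⟩ | ⟨i, j, q, c⟩) hw
  · obtain ⟨hs, hc, ht, ht'⟩ := hw
    have := hNB s hs
    left
    refine ⟨(s, c, t, 0), ?_, rfl⟩
    simp only [Set.mem_prod, Set.mem_Iic]
    refine ⟨?_, ?_, ?_, ?_⟩ <;> omega
  · obtain ⟨hi, hj, hq, hq', hc⟩ := hw
    right
    refine ⟨(i, j, q, c), ?_, rfl⟩
    have h3 : m * (j + 4) ≤ m * 6 := Nat.mul_le_mul_left _ (by omega)
    have h4 : 2 ^ q ≤ 2 ^ (m * 6) := Nat.pow_le_pow_right (by norm_num) (by omega)
    simp only [Set.mem_prod, Set.mem_Iic]
    refine ⟨?_, ?_, ?_, ?_⟩ <;> omega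

instance (m : ℕ) : Finite {w : W // WV m w} := (finite_WV m).to_subtype

lemma degree_le (m : ℕ) (v : {w : W // WV m w}) : ((GG m).neighborSet v).ncard ≤ 3 := by
  have hsub : Subtype.val '' ((GG m).neighborSet v) ⊆ {w | w ∈ nb m v.1} := by
    rintro w ⟨u, ⟨e, he, h⟩, rfl⟩
    rw [Sym2.eq_iff] at h
    rcases h with ⟨h1, h2⟩ | ⟨h1, h2⟩
    · have := hi_mem_nb he
      rwa [h1, h2] at this
    · have := lo_mem_nb he
      rwa [h1, h2] at this
  have h3 : {w | w ∈ nb m v.1}.ncard ≤ 3 := by
    have hl : (nb m v.1).length = 3 := by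
      cases v.1 <;> rfl
    classical
    have : {w | w ∈ nb m v.1} = ((nb m v.1).toFinset : Set W) := by
      ext w; simp
    rw [this, Set.ncard_coe_finset]
    exact (List.toFinset_card_le _).trans hl.le
  have h4 : {w | w ∈ nb m v.1}.Finite := List.finite_toSet _
  calc ((GG m).neighborSet v).ncard
      = (Subtype.val '' ((GG m).neighborSet v)).ncard :=
        (Set.ncard_image_of_injective _ Subtype.val_injective).symm
    _ ≤ {w | w ∈ nb m v.1}.ncard := Set.ncard_le_ncard hsub h4
    _ ≤ 3 := h3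

end Pool.Agent.H47
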