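import Pool.Agent.H47.TorDefs
import Pool.Agent.H47.TorGraph

/-!
# The graphs `G m` are toroidal
-/

set_option autoImplicit false

namespace Pool.Agent.H47

/-- The universal covering of the torus, normalised so that the deck group is generated by
`(6, 0)` and `(3, 4)`. -/
noncomputable def proj (p : ℝ × ℝ) : UnitAddCircle × UnitAddCircle :=
  ((((p.1 - 3 * p.2 / 4) / 6 : ℝ) : UnitAddCircle), ((p.2 / 4 : ℝ) : UnitAddCircle))

lemma proj_continuous : Continuous proj := by
  unfold proj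
  refine Continuous.prodMk ?_ ?_
  · exact (AddCircle.continuous_mk' (1 : ℝ)).comp (by fun_prop)
  · exact (AddCircle.continuous_mk' (1 : ℝ)).comp (by fun_prop)

lemma coe_eq_iff (x y : ℝ) : (x : UnitAddCircle) = (y : UnitAddCircle) ↔ ∃ a : ℤ, x - y = a := by
  rw [QuotientAddGroup.eq, AddSubgroup.mem_zmultiples_iff]
  constructor
  · rintro ⟨a, ha⟩
    refine ⟨-a, ?_⟩
    simp at ha
    push_cast
    linarith
  · rintro ⟨a, ha⟩
    refine ⟨-a, ?_⟩
    simp
    linarith

lemma proj_eq_iff (p q : ℝ × ℝ) :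
    proj p = proj q ↔ ∃ a b : ℤ, p.2 - q.2 = 4 * a ∧ p.1 - q.1 = 3 * a + 6 * b := by
  unfold proj
  rw [Prod.mk.injEq, coe_eq_iff, coe_eq_iff]
  constructor
  · rintro ⟨⟨b, hb⟩, ⟨a, ha⟩⟩
    refine ⟨a, b, by linarith, by linarith⟩
  · rintro ⟨a, b, ha, hb⟩
    refine ⟨⟨b, by linarith⟩, ⟨a, by linarith⟩⟩

/-- A subset of the plane on which `proj` is injective. -/
def Reg (p : ℝ × ℝ) : Prop :=
  0 < p.2 ∧ p.2 ≤ 4 ∧ ((2 < p.2 ∧ p.2 < 3 ∧ 1 < p.1 ∧ p.1 < 7) ∨
    (¬ (2 < p.2 ∧ p.2 < 3) ∧ 0 < p.1 ∧ p.1 < 6))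

lemma proj_injOn {p q : ℝ × ℝ} (hp : Reg p) (hq : Reg q) (h : proj p = proj q) : p = q := by
  obtain ⟨a, b, ha, hb⟩ := (proj_eq_iff p q).mp h
  obtain ⟨h1, h2, h3⟩ := hp
  obtain ⟨h1', h2', h3'⟩ := hq
  have ha0 : a = 0 := by
    have h4 : (a : ℝ) < 1 := by linarith
    have h5 : (-1 : ℝ) < a := by linarith
    have h6 : a < 1 := by exact_mod_cast h4
    have h7 : -1 < a := by exact_mod_cast h5
    omega
  subst ha0
  have hy : p.2 = q.2 := by push_cast at ha; linarith
  have hb0 : b = 0 := by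
    push_cast at hb
    have h4 : (b : ℝ) < 1 := by
      rcases h3 with h3 | h3 <;> rcases h3' with h3' | h3'
      · linarith [h3.2.2.1, h3.2.2.2, h3'.2.2.1, h3'.2.2.2]
      · exact absurd ⟨by rw [← hy]; exact h3.1, by rw [← hy]; exact h3.2.1⟩ h3'.1
      · exact absurd ⟨by rw [hy]; exact h3'.1, by rw [hy]; exact h3'.2.1⟩ h3.1
      · linarith [h3.2.1, h3.2.2, h3'.2.1, h3'.2.2]
    have h5 : (-1 : ℝ) < b := by
      rcases h3 with h3 | h3 <;> rcases h3' with h3' | h3'
      · linarith [h3.2.2.1, h3.2.2.2, h3'.2.2.1, h3'.2.2.2]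
      · exact absurd ⟨by rw [← hy]; exact h3.1, by rw [← hy]; exact h3.2.1⟩ h3'.1
      · exact absurd ⟨by rw [hy]; exact h3'.1, by rw [hy]; exact h3'.2.1⟩ h3.1
      · linarith [h3.2.1, h3.2.2, h3'.2.1, h3'.2.2]
    have h6 : b < 1 := by exact_mod_cast h4
    have h7 : -1 < b := by exact_mod_cast h5
    omega
  subst hb0
  have hx : p.1 = q.1 := by push_cast at hb; linarith
  exact Prod.ext hx hy

/-- left end of the cell of a hub -/
def XH (s : ℕ) : ℕ := if s < 3 then 2 * s else 2 * s - 5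
/-- lower end of the cell of a hub -/
def YH (s : ℕ) : ℕ := if s < 3 then 0 else 2
/-- left end of the cell of a zone -/
def XZ (i j : ℕ) : ℕ := if j = i then 2 * i + 1 else if j = (i + 2) % 3 then 2 * i else 2 * j + 1

/-- height of depth `κ` in a zone -/
noncomputable def yz (m i j : ℕ) (κ : ℝ) : ℝ :=
  if j = (i + 1) % 3 then 4 - (κ - m * (i + 1)) / (m * (j + 4) - m * (i + 1))
  else 1 + (κ - m * (i + 1)) / (m * (j + 4) - m * (i + 1))

/-- position of the vertices in the plane -/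
noncomputable def pos (m : ℕ) : W → ℝ × ℝ
  | .hub s c t => (XH s + (c + 1 / 2) / NN m s, YH s + t / (2 * NN m s + 1))
  | .zone i j q c => (XZ i j + (c + 1 / 2) / 2 ^ q, yz m i j q)

/-- curves of the edges in the plane -/
noncomputable def ept (m : ℕ) : Ed → ℝ → ℝ × ℝ
  | .vert s c t => fun σ => (XH s + (c + 1 / 2) / NN m s, YH s + (t + σ) / (2 * NN m s + 1))
  | .slant s c v => fun σ =>
      (XH s + (c + 1 / 2 + (1 - σ)) / NN m s, YH s + (2 * v + 1 + σ) / (2 * NN m s + 1))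
  | .tree i j q c => fun σ =>
      (XZ i j + ((1 - σ) * (2 * (c / 2 : ℕ) + 1) + σ * (c + 1 / 2)) / 2 ^ (q + 1), yz m i j (q + σ))

lemma yz_continuous (m i j : ℕ) : Continuous (yz m i j) := by
  unfold yz
  split_ifs <;> fun_prop

lemma ept_continuous (m : ℕ) (e : Ed) : Continuous (ept m e) := by
  cases e with
  | vert s c t => unfold ept; fun_prop
  | slant s c v => unfold ept; fun_prop
  | tree i j q c =>
    unfold ept
    have := yz_continuous m i j
    fun_prop

lemma den_pos {m i : ℕ} (hm : 0 < m) (j : ℕ) (hi : i < 3) :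
    (0 : ℝ) < m * (j + 4) - m * (i + 1) := by
  have h1 : m * (i + 1) < m * (j + 4) := exp_lt hm hi
  have h2 : ((m * (i + 1) : ℕ) : ℝ) < ((m * (j + 4) : ℕ) : ℝ) := by exact_mod_cast h1
  push_cast at h2
  linarith

lemma yz_inj {m i j : ℕ} (hm : 0 < m) (hi : i < 3) {κ κ' : ℝ}
    (h : yz m i j κ = yz m i j κ') : κ = κ' := by
  have hd := den_pos hm j hi
  unfold yz at h
  split_ifs at h
  · have h2 : (κ - m * (i + 1)) / (m * (j + 4) - m * (i + 1) : ℝ) =
        (κ' - m * (i + 1)) / (m * (j + 4) - m * (i + 1) : ℝ) := by linarith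
    rw [div_left_inj' hd.ne'] at h2
    linarith
  · have h2 : (κ - m * (i + 1)) / (m * (j + 4) - m * (i + 1) : ℝ) =
        (κ' - m * (i + 1)) / (m * (j + 4) - m * (i + 1) : ℝ) := by linarith
    rw [div_left_inj' hd.ne'] at h2
    linarith

lemma yz_mem {m i j : ℕ} (hm : 0 < m) (hi : i < 3) {κ : ℝ} (h1 : (m * (i + 1) : ℝ) ≤ κ)
    (h2 : κ ≤ m * (j + 4)) :
    (j = (i + 1) % 3 → 3 ≤ yz m i j κ ∧ yz m i j κ ≤ 4) ∧
    (j ≠ (i + 1) % 3 → 1 ≤ yz m i j κ ∧ yz m i j κ ≤ 2) := by
  have hd := den_pos hm j hi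
  have h3 : 0 ≤ (κ - m * (i + 1)) / (m * (j + 4) - m * (i + 1) : ℝ) :=
    div_nonneg (by linarith) hd.le
  have h4 : (κ - m * (i + 1)) / (m * (j + 4) - m * (i + 1) : ℝ) ≤ 1 := by
    rw [div_le_one hd]; linarith
  constructor
  · intro h
    unfold yz
    rw [if_pos h]
    constructor <;> linarith
  · intro h
    unfold yz
    rw [if_neg h]
    constructor <;> linarith

lemma yz_mem' {m i j : ℕ} (hm : 0 < m) (hi : i < 3) {κ : ℝ} (h1 : (m * (i + 1) : ℝ) < κ)
    (h2 : κ < m * (j + 4)) :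
    (j = (i + 1) % 3 → 3 < yz m i j κ ∧ yz m i j κ < 4) ∧
    (j ≠ (i + 1) % 3 → 1 < yz m i j κ ∧ yz m i j κ < 2) := by
  have hd := den_pos hm j hi
  have h3 : 0 < (κ - m * (i + 1)) / (m * (j + 4) - m * (i + 1) : ℝ) :=
    div_pos (by linarith) hd
  have h4 : (κ - m * (i + 1)) / (m * (j + 4) - m * (i + 1) : ℝ) < 1 := by
    rw [div_lt_one hd]; linarith
  constructor
  · intro h
    unfold yz
    rw [if_pos h]
    constructor <;> linarith
  · intro h
    unfold yz
    rw [if_neg h]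
    constructor <;> linarith

lemma yz_root {m i j : ℕ} : yz m i j (m * (i + 1)) = if j = (i + 1) % 3 then 4 else 1 := by
  unfold yz; split_ifs <;> simp

lemma yz_leaf {m i j : ℕ} (hm : 0 < m) (hi : i < 3) :
    yz m i j (m * (j + 4)) = if j = (i + 1) % 3 then 3 else 2 := by
  have hd := den_pos hm j hi
  unfold yz
  rw [div_self hd.ne']
  split_ifs <;> norm_num


/-- The open cell of hub `s`. -/
def HCell (s : ℕ) (p : ℝ × ℝ) : Prop :=
  (XH s : ℝ) < p.1 ∧ p.1 < XH s + 2 ∧ (YH s : ℝ) < p.2 ∧ p.2 < YH s + 1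

/-- The cell of a zone, with its lower and upper boundary. -/
def ZCell (i j : ℕ) (p : ℝ × ℝ) : Prop :=
  (XZ i j : ℝ) < p.1 ∧ p.1 < XZ i j + 1 ∧
    (j = (i + 1) % 3 → 3 ≤ p.2 ∧ p.2 ≤ 4) ∧ (j ≠ (i + 1) % 3 → 1 ≤ p.2 ∧ p.2 ≤ 2)

lemma HCell.reg {s : ℕ} (hs : s < 6) {p : ℝ × ℝ} (h : HCell s p) : Reg p := by
  obtain ⟨h1, h2, h3, h4⟩ := h
  by_cases h5 : s < 3
  · have e1 : XH s = 2 * s := by simp [XH, h5]
    have e2 : YH s = 0 := by simp [YH, h5]
    rw [e1] at h1 h2
    rw [e2] at h3 h4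
    have h6 : (s : ℝ) ≤ 2 := by exact_mod_cast (by omega : s ≤ 2)
    have h7 : (0 : ℝ) ≤ s := by positivity
    push_cast at h1 h2 h3 h4
    refine ⟨h3, by linarith, Or.inr ⟨fun h => by linarith [h.1], by linarith, by linarith⟩⟩
  · have e1 : XH s = 2 * s - 5 := by simp [XH, h5]
    have e2 : YH s = 2 := by simp [YH, h5]
    have e3 : ((2 * s - 5 : ℕ) : ℝ) = 2 * s - 5 := by
      rw [Nat.cast_sub (by omega)]; push_cast; ring
    rw [e1, e3] at h1 h2
    rw [e2] at h3 h4
    have h6 : (s : ℝ) ≤ 5 := by exact_mod_cast (by omega : s ≤ 5)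
    have h7 : (3 : ℝ) ≤ s := by exact_mod_cast (by omega : 3 ≤ s)
    push_cast at h1 h2 h3 h4
    refine ⟨by linarith, by linarith, Or.inl ⟨by linarith, by linarith, by linarith, by linarith⟩⟩

lemma ZCell.reg {i j : ℕ} (hi : i < 3) (hj : j < 3) {p : ℝ × ℝ} (h : ZCell i j p) : Reg p := by
  obtain ⟨h1, h2, h3, h4⟩ := h
  have h5 : (XZ i j : ℝ) ≤ 5 := by
    have : XZ i j ≤ 5 := by unfold XZ; split_ifs <;> omega
    exact_mod_cast this
  have h6 : (0 : ℝ) ≤ XZ i j := by positivity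
  by_cases h7 : j = (i + 1) % 3
  · obtain ⟨h8, h9⟩ := h3 h7
    refine ⟨by linarith, h9, Or.inr ⟨fun h => by linarith [h.2], by linarith, by linarith⟩⟩
  · obtain ⟨h8, h9⟩ := h4 h7
    refine ⟨by linarith, by linarith, Or.inr ⟨fun h => by linarith [h.1], by linarith, by linarith⟩⟩

lemma HCell.unique {s s' : ℕ} (hs : s < 6) (hs' : s' < 6) {p : ℝ × ℝ} (h : HCell s p)
    (h' : HCell s' p) : s = s' := by
  obtain ⟨h1, h2, h3, h4⟩ := h
  obtain ⟨h1', h2', h3', h4'⟩ := h'
  have e1 : YH s < YH s' + 1 := by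
    have : (YH s : ℝ) < YH s' + 1 := by linarith
    exact_mod_cast this
  have e2 : YH s' < YH s + 1 := by
    have : (YH s' : ℝ) < YH s + 1 := by linarith
    exact_mod_cast this
  have e3 : XH s < XH s' + 2 := by
    have : (XH s : ℝ) < XH s' + 2 := by linarith
    exact_mod_cast this
  have e4 : XH s' < XH s + 2 := by
    have : (XH s' : ℝ) < XH s + 2 := by linarith
    exact_mod_cast this
  unfold XH at e3 e4
  unfold YH at e1 e2
  split_ifs at e1 e2 e3 e4 <;> omega

lemma ZCell.unique {i j i' j' : ℕ} (hi : i < 3) (hj : j < 3) (hi' : i' < 3) (hj' : j' < 3)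
    {p : ℝ × ℝ} (h : ZCell i j p) (h' : ZCell i' j' p) : i = i' ∧ j = j' := by
  obtain ⟨h1, h2, h3, h4⟩ := h
  obtain ⟨h1', h2', h3', h4'⟩ := h'
  have e3 : XZ i j < XZ i' j' + 1 := by
    have : (XZ i j : ℝ) < XZ i' j' + 1 := by linarith
    exact_mod_cast this
  have e4 : XZ i' j' < XZ i j + 1 := by
    have : (XZ i' j' : ℝ) < XZ i j + 1 := by linarith
    exact_mod_cast this
  have e5 : j = (i + 1) % 3 ↔ j' = (i' + 1) % 3 := by
    constructor
    · intro h
      by_contra h5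
      linarith [(h3 h).1, (h4' h5).2]
    · intro h
      by_contra h5
      linarith [(h3' h).1, (h4 h5).2]
  unfold XZ at e3 e4
  split_ifs at e3 e4 <;> omega

lemma HCell.not_ZCell {s i j : ℕ} {p : ℝ × ℝ} (h : HCell s p) (h' : ZCell i j p) : False := by
  obtain ⟨h1, h2, h3, h4⟩ := h
  obtain ⟨h1', h2', h3', h4'⟩ := h'
  have e : YH s = 0 ∨ YH s = 2 := by unfold YH; split_ifs <;> simp
  by_cases h5 : j = (i + 1) % 3
  · obtain ⟨h6, h7⟩ := h3' h5
    rcases e with e | e <;> rw [e] at h3 h4 <;> push_cast at h3 h4 <;> linarith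
  · obtain ⟨h6, h7⟩ := h4' h5
    rcases e with e | e <;> rw [e] at h3 h4 <;> push_cast at h3 h4 <;> linarith

lemma NN_pos' (m s : ℕ) : (0 : ℝ) < NN m s := by exact_mod_cast NN_pos m s

lemma pos_hub_cell {m s c t : ℕ} (h : WV m (.hub s c t)) : HCell s (pos m (.hub s c t)) := by
  obtain ⟨hs, hc, ht, ht'⟩ := h
  have hN := NN_pos' m s
  have hc' : (c : ℝ) + 1 ≤ 2 * NN m s := by exact_mod_cast hc
  have ht1 : (1 : ℝ) ≤ t := by exact_mod_cast ht
  have ht2 : (t : ℝ) ≤ 2 * NN m s := by exact_mod_cast ht'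
  have h1 : 0 < ((c : ℝ) + 1 / 2) / NN m s := by positivity
  have h2 : ((c : ℝ) + 1 / 2) / NN m s < 2 := by rw [div_lt_iff₀ hN]; linarith
  have h3 : 0 < (t : ℝ) / (2 * NN m s + 1) := by positivity
  have h4 : (t : ℝ) / (2 * NN m s + 1) < 1 := by rw [div_lt_one (by linarith)]; linarith
  refine ⟨?_, ?_, ?_, ?_⟩ <;> simp only [pos] <;> linarith

lemma pos_zone_cell {m i j q c : ℕ} (hm : 0 < m) (h : WV m (.zone i j q c)) :
    ZCell i j (pos m (.zone i j q c)) := by
  obtain ⟨hi, hj, hq, hq', hc⟩ := h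
  have hN : (0 : ℝ) < 2 ^ q := by positivity
  have hc' : (c : ℝ) + 1 ≤ 2 ^ q := by exact_mod_cast hc
  have h1 : 0 < ((c : ℝ) + 1 / 2) / 2 ^ q := by positivity
  have h2 : ((c : ℝ) + 1 / 2) / 2 ^ q < 1 := by rw [div_lt_iff₀ hN]; linarith
  have h3 := yz_mem hm hi (j := j) (κ := q) (by exact_mod_cast hq) (by exact_mod_cast hq')
  refine ⟨?_, ?_, h3.1, h3.2⟩ <;> simp only [pos] <;> linarith

lemma ept_vert_cell {m s c t : ℕ} (h : EV m (.vert s c t)) {σ : ℝ} (h0 : 0 < σ) (h1 : σ < 1) :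
    HCell s (ept m (.vert s c t) σ) := by
  obtain ⟨hs, hc, ht, -, -⟩ := h
  have hN := NN_pos' m s
  have hc' : (c : ℝ) + 1 ≤ 2 * NN m s := by exact_mod_cast hc
  have ht2 : (t : ℝ) ≤ 2 * NN m s := by exact_mod_cast ht
  have h1' : 0 < ((c : ℝ) + 1 / 2) / NN m s := by positivity
  have h2 : ((c : ℝ) + 1 / 2) / NN m s < 2 := by rw [div_lt_iff₀ hN]; linarith
  have h3 : 0 < ((t : ℝ) + σ) / (2 * NN m s + 1) := by positivity
  have h4 : ((t : ℝ) + σ) / (2 * NN m s + 1) < 1 := by rw [div_lt_one (by linarith)]; linarith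
  refine ⟨?_, ?_, ?_, ?_⟩ <;> simp only [ept] <;> linarith

lemma ept_slant_cell {m s c v : ℕ} (h : EV m (.slant s c v)) {σ : ℝ} (h0 : 0 < σ) (h1 : σ < 1) :
    HCell s (ept m (.slant s c v) σ) := by
  obtain ⟨hs, hc, hv⟩ := h
  have hN := NN_pos' m s
  have hc' : (c : ℝ) + 1 + 1 ≤ 2 * NN m s := by exact_mod_cast hc
  have hv2 : (v : ℝ) + 1 ≤ NN m s := by exact_mod_cast hv
  have h1' : 0 < ((c : ℝ) + 1 / 2 + (1 - σ)) / NN m s :=
    div_pos (by have : (0 : ℝ) ≤ c := by positivity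
                linarith) hN
  have h2 : ((c : ℝ) + 1 / 2 + (1 - σ)) / NN m s < 2 := by rw [div_lt_iff₀ hN]; linarith
  have h3 : 0 < (2 * (v : ℝ) + 1 + σ) / (2 * NN m s + 1) := by positivity
  have h4 : (2 * (v : ℝ) + 1 + σ) / (2 * NN m s + 1) < 1 := by
    rw [div_lt_one (by linarith)]; linarith
  refine ⟨?_, ?_, ?_, ?_⟩ <;> simp only [ept] <;> linarith

lemma ept_tree_cell {m i j q c : ℕ} (hm : 0 < m) (h : EV m (.tree i j q c)) {σ : ℝ} (h0 : 0 < σ)
    (h1 : σ < 1) : ZCell i j (ept m (.tree i j q c) σ) := by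
  obtain ⟨hi, hj, hq, hq', hc⟩ := h
  have hN : (0 : ℝ) < 2 ^ (q + 1) := by positivity
  have hc' : (c : ℝ) + 1 ≤ 2 ^ (q + 1) := by exact_mod_cast hc
  have hc2 : c / 2 + 1 ≤ 2 ^ q := by rw [pow_succ] at hc; omega
  have hc3 : ((c / 2 : ℕ) : ℝ) + 1 ≤ 2 ^ q := by exact_mod_cast hc2
  have hp : (2 : ℝ) ^ (q + 1) = 2 * 2 ^ q := by rw [pow_succ]; ring
  have hc0 : (0 : ℝ) ≤ c := by positivity
  have hc00 : (0 : ℝ) ≤ ((c / 2 : ℕ) : ℝ) := by positivity
  have h1' : 0 < ((1 - σ) * (2 * ((c / 2 : ℕ) : ℝ) + 1) + σ * (c + 1 / 2)) / 2 ^ (q + 1) := by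
    apply div_pos _ hN
    have : 0 < (1 - σ) * (2 * ((c / 2 : ℕ) : ℝ) + 1) := mul_pos (by linarith) (by linarith)
    have : 0 < σ * ((c : ℝ) + 1 / 2) := mul_pos h0 (by linarith)
    linarith
  have h2 : ((1 - σ) * (2 * ((c / 2 : ℕ) : ℝ) + 1) + σ * (c + 1 / 2)) / 2 ^ (q + 1) < 1 := by
    rw [div_lt_one hN]
    have e1 : (1 - σ) * (2 * ((c / 2 : ℕ) : ℝ) + 1) < (1 - σ) * 2 ^ (q + 1) :=
      mul_lt_mul_of_pos_left (by rw [hp]; linarith) (by linarith)
    have e2 : σ * ((c : ℝ) + 1 / 2) < σ * 2 ^ (q + 1) := mul_lt_mul_of_pos_left (by linarith) h0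
    linarith
  have g1 : ((m : ℝ) * (i + 1)) ≤ q := by exact_mod_cast hq
  have g2 : (q : ℝ) + 1 ≤ m * (j + 4) := by exact_mod_cast hq'
  have h3 := yz_mem hm hi (j := j) (κ := q + σ) (by linarith) (by linarith)
  refine ⟨?_, ?_, h3.1, h3.2⟩ <;> simp only [ept] <;> linarith

lemma nat_add_eq {a b : ℕ} {x y : ℝ} (hx0 : 0 ≤ x) (hx1 : x < 1) (hy0 : 0 ≤ y) (hy1 : y < 1)
    (h : (a : ℝ) + x = b + y) : a = b ∧ x = y := by
  have h1 : (a : ℝ) < b + 1 := by linarith
  have h2 : (b : ℝ) < a + 1 := by linarith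
  have h3 : a < b + 1 := by exact_mod_cast h1
  have h4 : b < a + 1 := by exact_mod_cast h2
  have h5 : a = b := by omega
  subst h5
  exact ⟨rfl, by linarith⟩

/-- Interiors of distinct edges are disjoint (in the plane). -/
lemma ept_inj {m : ℕ} (hm : 0 < m) {e f : Ed} (he : EV m e) (hf : EV m f) {σ τ : ℝ}
    (hσ0 : 0 < σ) (hσ1 : σ < 1) (hτ0 : 0 < τ) (hτ1 : τ < 1) (h : ept m e σ = ept m f τ) :
    e = f := by
  cases e with
  | vert s c t =>
    have hcell := ept_vert_cell he hσ0 hσ1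
    cases f with
    | vert s' c' t' =>
      have hcell' := ept_vert_cell hf hτ0 hτ1
      rw [← h] at hcell'
      obtain rfl := hcell.unique he.1 hf.1 hcell'
      have hN := NN_pos' m s
      have h1 := congrArg Prod.fst h
      have h2 := congrArg Prod.snd h
      simp only [ept] at h1 h2
      have h3 : ((c : ℝ) + 1 / 2) / NN m s = ((c' : ℝ) + 1 / 2) / NN m s := by linarith
      rw [div_left_inj' hN.ne'] at h3
      have h4 : ((t : ℝ) + σ) / (2 * NN m s + 1) = (t' + τ) / (2 * NN m s + 1) := by linarith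
      rw [div_left_inj' (by linarith)] at h4
      have h5 := nat_add_eq hσ0.le hσ1 hτ0.le hτ1 h4
      have h6 : (c : ℝ) = c' := by linarith
      have h7 : c = c' := by exact_mod_cast h6
      rw [h5.1, h7]
    | slant s' c' v' =>
      exfalso
      have hcell' := ept_slant_cell hf hτ0 hτ1
      rw [← h] at hcell'
      obtain rfl := hcell.unique he.1 hf.1 hcell'
      have hN := NN_pos' m s
      have h1 := congrArg Prod.fst h
      have h2 := congrArg Prod.snd h
      simp only [ept] at h1 h2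
      have h3 : ((c : ℝ) + 1 / 2) / NN m s = ((c' : ℝ) + 1 / 2 + (1 - τ)) / NN m s := by linarith
      rw [div_left_inj' hN.ne'] at h3
      have h4 := nat_add_eq (a := c) (b := c') (x := 0) (y := 1 - τ) le_rfl one_pos
        (by linarith) (by linarith) (by linarith)
      linarith [h4.2]
    | tree i' j' q' c' =>
      exfalso
      have hcell' := ept_tree_cell hm hf hτ0 hτ1
      rw [← h] at hcell'
      exact hcell.not_ZCell hcell'
  | slant s c v =>
    have hcell := ept_slant_cell he hσ0 hσ1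
    cases f with
    | vert s' c' t' =>
      exfalso
      have hcell' := ept_vert_cell hf hτ0 hτ1
      rw [← h] at hcell'
      obtain rfl := hcell.unique he.1 hf.1 hcell'
      have hN := NN_pos' m s
      have h1 := congrArg Prod.fst h
      simp only [ept] at h1
      have h3 : ((c' : ℝ) + 1 / 2) / NN m s = ((c : ℝ) + 1 / 2 + (1 - σ)) / NN m s := by linarith
      rw [div_left_inj' hN.ne'] at h3
      have h4 := nat_add_eq (a := c') (b := c) (x := 0) (y := 1 - σ) le_rfl one_pos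
        (by linarith) (by linarith) (by linarith)
      linarith [h4.2]
    | slant s' c' v' =>
      have hcell' := ept_slant_cell hf hτ0 hτ1
      rw [← h] at hcell'
      obtain rfl := hcell.unique he.1 hf.1 hcell'
      have hN := NN_pos' m s
      have h1 := congrArg Prod.fst h
      have h2 := congrArg Prod.snd h
      simp only [ept] at h1 h2
      have h3 : ((c : ℝ) + 1 / 2 + (1 - σ)) / NN m s = ((c' : ℝ) + 1 / 2 + (1 - τ)) / NN m s := by
        linarith
      rw [div_left_inj' hN.ne'] at h3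
      have h4 := nat_add_eq (a := c) (b := c') (x := 1 - σ) (y := 1 - τ) (by linarith)
        (by linarith) (by linarith) (by linarith) (by linarith)
      have h5 : (2 * (v : ℝ) + 1 + σ) / (2 * NN m s + 1) =
          (2 * v' + 1 + τ) / (2 * NN m s + 1) := by linarith
      rw [div_left_inj' (by linarith)] at h5
      have h6 : (v : ℝ) = v' := by linarith [h4.2]
      have h7 : v = v' := by exact_mod_cast h6
      rw [h4.1, h7]
    | tree i' j' q' c' =>
      exfalso
      have hcell' := ept_tree_cell hm hf hτ0 hτ1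
      rw [← h] at hcell'
      exact hcell.not_ZCell hcell'
  | tree i j q c =>
    have hcell := ept_tree_cell hm he hσ0 hσ1
    cases f with
    | vert s' c' t' =>
      exfalso
      have hcell' := ept_vert_cell hf hτ0 hτ1
      rw [← h] at hcell'
      exact hcell'.not_ZCell hcell
    | slant s' c' v' =>
      exfalso
      have hcell' := ept_slant_cell hf hτ0 hτ1
      rw [← h] at hcell'
      exact hcell'.not_ZCell hcell
    | tree i' j' q' c' =>
      have hcell' := ept_tree_cell hm hf hτ0 hτ1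
      rw [← h] at hcell'
      obtain ⟨rfl, rfl⟩ := hcell.unique he.1 he.2.1 hf.1 hf.2.1 hcell'
      have h1 := congrArg Prod.fst h
      have h2 := congrArg Prod.snd h
      simp only [ept] at h1 h2
      have h3 := yz_inj hm he.1 h2
      obtain ⟨rfl, rfl⟩ := nat_add_eq hσ0.le hσ1 hτ0.le hτ1 h3
      have hN : (0 : ℝ) < 2 ^ (q + 1) := by positivity
      have h4 : ((1 - σ) * (2 * ((c / 2 : ℕ) : ℝ) + 1) + σ * (c + 1 / 2)) / 2 ^ (q + 1) =
          ((1 - σ) * (2 * ((c' / 2 : ℕ) : ℝ) + 1) + σ * (c' + 1 / 2)) / 2 ^ (q + 1) := by linarith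
      rw [div_left_inj' hN.ne'] at h4
      have mono : ∀ a b : ℕ, a < b →
          (1 - σ) * (2 * ((a / 2 : ℕ) : ℝ) + 1) + σ * (a + 1 / 2) <
          (1 - σ) * (2 * ((b / 2 : ℕ) : ℝ) + 1) + σ * (b + 1 / 2) := by
        intro a b hab
        have e1 : ((a / 2 : ℕ) : ℝ) ≤ ((b / 2 : ℕ) : ℝ) := by
          exact_mod_cast Nat.div_le_div_right hab.le
        have e2 : (a : ℝ) < b := by exact_mod_cast hab
        have e3 : (1 - σ) * (2 * ((a / 2 : ℕ) : ℝ) + 1) ≤ (1 - σ) * (2 * ((b / 2 : ℕ) : ℝ) + 1) :=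
          mul_le_mul_of_nonneg_left (by linarith) (by linarith)
        have e4 : σ * ((a : ℝ) + 1 / 2) < σ * (b + 1 / 2) :=
          mul_lt_mul_of_pos_left (by linarith) hσ0
        linarith
      rcases lt_trichotomy c c' with h5 | h5 | h5
      · exact absurd h4 (mono _ _ h5).ne
      · rw [h5]
      · exact absurd h4 (mono _ _ h5).ne'

/-- Interiors of edges avoid the vertices (in the plane). -/
lemma ept_ne_pos {m : ℕ} (hm : 0 < m) {e : Ed} {w : W} (he : EV m e) (hw : WV m w) {σ : ℝ}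
    (hσ0 : 0 < σ) (hσ1 : σ < 1) : ept m e σ ≠ pos m w := by
  intro h
  cases e with
  | vert s c t =>
    have hcell := ept_vert_cell he hσ0 hσ1
    cases w with
    | hub s' c' t' =>
      have hcell' := pos_hub_cell hw
      rw [← h] at hcell'
      obtain rfl := hcell.unique he.1 hw.1 hcell'
      have hN := NN_pos' m s
      have h2 := congrArg Prod.snd h
      simp only [ept, pos] at h2
      have h4 : ((t : ℝ) + σ) / (2 * NN m s + 1) = t' / (2 * NN m s + 1) := by linarith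
      rw [div_left_inj' (by linarith)] at h4
      have h5 := nat_add_eq (a := t) (b := t') (x := σ) (y := 0) hσ0.le hσ1 le_rfl one_pos
        (by linarith)
      linarith [h5.2]
    | zone i' j' q' c' =>
      have hcell' := pos_zone_cell hm hw
      rw [← h] at hcell'
      exact hcell.not_ZCell hcell'
  | slant s c v =>
    have hcell := ept_slant_cell he hσ0 hσ1
    cases w with
    | hub s' c' t' =>
      have hcell' := pos_hub_cell hw
      rw [← h] at hcell'
      obtain rfl := hcell.unique he.1 hw.1 hcell'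
      have hN := NN_pos' m s
      have h2 := congrArg Prod.snd h
      simp only [ept, pos] at h2
      have h4 : (2 * (v : ℝ) + 1 + σ) / (2 * NN m s + 1) = t' / (2 * NN m s + 1) := by linarith
      rw [div_left_inj' (by linarith)] at h4
      have h5 := nat_add_eq (a := 2 * v + 1) (b := t') (x := σ) (y := 0) hσ0.le hσ1 le_rfl one_pos
        (by push_cast; linarith)
      linarith [h5.2]
    | zone i' j' q' c' =>
      have hcell' := pos_zone_cell hm hw
      rw [← h] at hcell'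
      exact hcell.not_ZCell hcell'
  | tree i j q c =>
    have hcell := ept_tree_cell hm he hσ0 hσ1
    cases w with
    | hub s' c' t' =>
      have hcell' := pos_hub_cell hw
      rw [← h] at hcell'
      exact hcell'.not_ZCell hcell
    | zone i' j' q' c' =>
      have hcell' := pos_zone_cell hm hw
      rw [← h] at hcell'
      obtain ⟨rfl, rfl⟩ := hcell.unique he.1 he.2.1 hw.1 hw.2.1 hcell'
      have h2 := congrArg Prod.snd h
      simp only [ept, pos] at h2
      have h3 := yz_inj hm he.1 h2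
      have h5 := nat_add_eq (a := q) (b := q') (x := σ) (y := 0) hσ0.le hσ1 le_rfl one_pos
        (by linarith)
      linarith [h5.2]

lemma pos_inj {m : ℕ} (hm : 0 < m) {w w' : W} (hw : WV m w) (hw' : WV m w')
    (h : pos m w = pos m w') : w = w' := by
  cases w with
  | hub s c t =>
    have hcell := pos_hub_cell hw
    cases w' with
    | hub s' c' t' =>
      have hcell' := pos_hub_cell hw'
      rw [← h] at hcell'
      obtain rfl := hcell.unique hw.1 hw'.1 hcell'
      have hN := NN_pos' m s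
      have h1 := congrArg Prod.fst h
      have h2 := congrArg Prod.snd h
      simp only [pos] at h1 h2
      have h3 : ((c : ℝ) + 1 / 2) / NN m s = ((c' : ℝ) + 1 / 2) / NN m s := by linarith
      rw [div_left_inj' hN.ne'] at h3
      have h4 : (t : ℝ) / (2 * NN m s + 1) = t' / (2 * NN m s + 1) := by linarith
      rw [div_left_inj' (by linarith)] at h4
      have h6 : (c : ℝ) = c' := by linarith
      have h7 : c = c' := by exact_mod_cast h6
      have h8 : t = t' := by exact_mod_cast h4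
      rw [h7, h8]
    | zone i' j' q' c' =>
      have hcell' := pos_zone_cell hm hw'
      rw [← h] at hcell'
      exact (hcell.not_ZCell hcell').elim
  | zone i j q c =>
    have hcell := pos_zone_cell hm hw
    cases w' with
    | hub s' c' t' =>
      have hcell' := pos_hub_cell hw'
      rw [← h] at hcell'
      exact (hcell'.not_ZCell hcell).elim
    | zone i' j' q' c' =>
      have hcell' := pos_zone_cell hm hw'
      rw [← h] at hcell'
      obtain ⟨rfl, rfl⟩ := hcell.unique hw.1 hw.2.1 hw'.1 hw'.2.1 hcell'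
      have h1 := congrArg Prod.fst h
      have h2 := congrArg Prod.snd h
      simp only [pos] at h1 h2
      have h3 := yz_inj hm hw.1 h2
      have h4 : q = q' := by exact_mod_cast h3
      subst h4
      have hN : (0 : ℝ) < 2 ^ q := by positivity
      have h5 : ((c : ℝ) + 1 / 2) / 2 ^ q = ((c' : ℝ) + 1 / 2) / 2 ^ q := by linarith
      rw [div_left_inj' hN.ne'] at h5
      have h6 : (c : ℝ) = c' := by linarith
      have h7 : c = c' := by exact_mod_cast h6
      rw [h7]


lemma yz_root' {m i j n : ℕ} (hn : n = m * (i + 1)) :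
    yz m i j (n : ℝ) = if j = (i + 1) % 3 then 4 else 1 := by
  rw [← yz_root (m := m) (i := i) (j := j), hn]; push_cast; rfl

lemma yz_leaf' {m i j n : ℕ} (hm : 0 < m) (hi : i < 3) (hn : n = m * (j + 4)) :
    yz m i j (n : ℝ) = if j = (i + 1) % 3 then 3 else 2 := by
  rw [← yz_leaf hm hi (j := j), hn]; push_cast; rfl

lemma bot_ok {m s c : ℕ} (hm : 0 < m) (hs : s < 6) :
    proj (XH s + ((c : ℝ) + 1 / 2) / NN m s, YH s) = proj (pos m (botW m s c)) := by
  have hN := NN_pos' m s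
  rw [proj_eq_iff]
  unfold botW
  split_ifs with h1 h2
  · have hy : yz m s ((s + 1) % 3) ((m * (s + 1) : ℕ) : ℝ) = 4 := by
      rw [yz_root' rfl]; simp
    have hNN : ((2 : ℝ) ^ (m * (s + 1))) = NN m s := by simp [NN]
    simp only [pos, hy, hNN]
    interval_cases s
    · refine ⟨-1, 0, ?_, ?_⟩ <;> simp [XH, YH, XZ]
    · refine ⟨-1, 0, ?_, ?_⟩ <;> simp [XH, YH, XZ]; norm_num
    · refine ⟨-1, 1, ?_, ?_⟩ <;> simp [XH, YH, XZ]; norm_num
  · have hy : yz m (s - 3) (s - 3) ((m * (s + 1) : ℕ) : ℝ) = 2 := by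
      rw [yz_leaf' hm (by omega) (by congr 1; omega)]
      rw [if_neg (by omega)]
    have hNN : ((2 : ℝ) ^ (m * (s + 1))) = NN m s := by simp [NN]
    simp only [pos, hy, hNN]
    have : 3 ≤ s := by omega
    interval_cases s
    · refine ⟨0, 0, ?_, ?_⟩ <;> simp [XH, YH, XZ]
    · refine ⟨0, 0, ?_, ?_⟩ <;> simp [XH, YH, XZ]
    · refine ⟨0, 0, ?_, ?_⟩ <;> simp [XH, YH, XZ]
  · have hy : yz m ((s - 2) % 3) (s - 3) ((m * (s + 1) : ℕ) : ℝ) = 2 := by
      rw [yz_leaf' hm (by omega) (by congr 1; omega)]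
      rw [if_neg (by omega)]
    have hNN : ((2 : ℝ) ^ (m * (s + 1))) = NN m s := by simp [NN]
    have hc : ((c - NN m s : ℕ) : ℝ) = c - NN m s := Nat.cast_sub (by omega)
    simp only [pos, hy, hNN, hc]
    have e : ((c : ℝ) - NN m s + 1 / 2) / NN m s = (c + 1 / 2) / NN m s - 1 := by
      field_simp; ring
    rw [e]
    have : 3 ≤ s := by omega
    interval_cases s
    · refine ⟨0, 0, ?_, ?_⟩ <;> simp [XH, YH, XZ]; ring
    · refine ⟨0, 0, ?_, ?_⟩ <;> simp [XH, YH, XZ]; ring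
    · refine ⟨0, 1, ?_, ?_⟩ <;> simp [XH, YH, XZ]; ring

lemma top_ok {m s c : ℕ} (hm : 0 < m) (hs : s < 6) :
    proj (XH s + ((c : ℝ) + 1 / 2) / NN m s, YH s + 1) = proj (pos m (topW m s c)) := by
  have hN := NN_pos' m s
  rw [proj_eq_iff]
  unfold topW
  split_ifs with h1 h2
  · have hy : yz m s ((s + 2) % 3) ((m * (s + 1) : ℕ) : ℝ) = 1 := by
      rw [yz_root' rfl]
      rw [if_neg (by omega)]
    have hNN : ((2 : ℝ) ^ (m * (s + 1))) = NN m s := by simp [NN]
    simp only [pos, hy, hNN]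
    interval_cases s
    · refine ⟨0, 0, ?_, ?_⟩ <;> simp [XH, YH, XZ]
    · refine ⟨0, 0, ?_, ?_⟩ <;> simp [XH, YH, XZ]
    · refine ⟨0, 0, ?_, ?_⟩ <;> simp [XH, YH, XZ]
  · have hy : yz m s s ((m * (s + 1) : ℕ) : ℝ) = 1 := by
      rw [yz_root' rfl]
      rw [if_neg (by omega)]
    have hNN : ((2 : ℝ) ^ (m * (s + 1))) = NN m s := by simp [NN]
    have hc : ((c - NN m s : ℕ) : ℝ) = c - NN m s := Nat.cast_sub (by omega)
    simp only [pos, hy, hNN, hc]
    have e : ((c : ℝ) - NN m s + 1 / 2) / NN m s = (c + 1 / 2) / NN m s - 1 := by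
      field_simp; ring
    rw [e]
    interval_cases s
    · refine ⟨0, 0, ?_, ?_⟩ <;> simp [XH, YH, XZ]
    · refine ⟨0, 0, ?_, ?_⟩ <;> simp [XH, YH, XZ]; ring
    · refine ⟨0, 0, ?_, ?_⟩ <;> simp [XH, YH, XZ]; ring
  · have hy : yz m ((s - 1) % 3) (s - 3) ((m * (s + 1) : ℕ) : ℝ) = 3 := by
      rw [yz_leaf' hm (by omega) (by congr 1; omega)]
      rw [if_pos (by omega)]
    have hNN : ((2 : ℝ) ^ (m * (s + 1))) = NN m s := by simp [NN]
    simp only [pos, hy, hNN]
    have : 3 ≤ s := by omega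
    interval_cases s
    · refine ⟨0, 0, ?_, ?_⟩ <;> simp [XH, YH, XZ]; norm_num
    · refine ⟨0, 0, ?_, ?_⟩ <;> simp [XH, YH, XZ]; norm_num
    · refine ⟨0, 0, ?_, ?_⟩ <;> simp [XH, YH, XZ]; norm_num

lemma ept_zero {m : ℕ} (hm : 0 < m) {e : Ed} (he : EV m e) :
    proj (ept m e 0) = proj (pos m (lo m e)) := by
  cases e with
  | vert s c t =>
    simp only [lo]
    split_ifs with h
    · subst h
      rw [← bot_ok hm he.1]
      simp [ept]
    · simp [ept, pos]
  | slant s c v =>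
    simp only [lo, ept, pos]
    congr 2
    · push_cast; ring
    · push_cast; ring
  | tree i j q c =>
    have h1 : (2 : ℝ) ^ (q + 1) = 2 * 2 ^ q := by rw [pow_succ]; ring
    simp only [lo, ept, pos]
    congr 2
    · rw [h1]; field_simp; ring
    · simp

lemma ept_one {m : ℕ} (hm : 0 < m) {e : Ed} (he : EV m e) :
    proj (ept m e 1) = proj (pos m (hi m e)) := by
  cases e with
  | vert s c t =>
    simp only [hi]
    split_ifs with h
    · subst h
      rw [← top_ok hm he.1]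
      have hN := NN_pos' m s
      simp only [ept]
      congr 2
      push_cast
      rw [div_self (by linarith)]
    · simp [ept, pos]
  | slant s c v =>
    simp only [hi, ept, pos]
    congr 2
    · ring
    · push_cast; ring
  | tree i j q c =>
    simp only [hi, ept, pos]
    congr 2
    · ring
    · push_cast; ring

/-- The vertical extent of an edge. -/
lemma ept_snd {m : ℕ} (hm : 0 < m) {e : Ed} (he : EV m e) : ∃ y0 δ : ℝ, δ ≠ 0 ∧ |δ| ≤ 1 ∧
    ∀ σ, (ept m e σ).2 = y0 + δ * σ := by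
  cases e with
  | vert s c t =>
    have hN := NN_pos' m s
    refine ⟨YH s + t / (2 * NN m s + 1), 1 / (2 * NN m s + 1), by positivity, ?_, ?_⟩
    · rw [abs_of_pos (by positivity), div_le_one (by positivity)]; linarith
    · intro σ; simp only [ept]; ring
  | slant s c v =>
    have hN := NN_pos' m s
    refine ⟨YH s + (2 * v + 1) / (2 * NN m s + 1), 1 / (2 * NN m s + 1), by positivity, ?_, ?_⟩
    · rw [abs_of_pos (by positivity), div_le_one (by positivity)]; linarith
    · intro σ; simp only [ept]; ring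
  | tree i j q c =>
    have hd := den_pos hm j he.1
    have h1 : (1 : ℝ) ≤ m * (j + 4) - m * (i + 1) := by
      have h2 : m * (i + 1) + 1 ≤ m * (j + 4) := exp_lt hm he.1
      have h3 : ((m * (i + 1) + 1 : ℕ) : ℝ) ≤ ((m * (j + 4) : ℕ) : ℝ) := by exact_mod_cast h2
      push_cast at h3
      linarith
    by_cases h : j = (i + 1) % 3
    · refine ⟨yz m i j q, -(1 / (m * (j + 4) - m * (i + 1))), ?_, ?_, ?_⟩
      · exact neg_ne_zero.mpr (one_div_pos.mpr hd).ne'
      · rw [abs_neg, abs_of_pos (one_div_pos.mpr hd), div_le_one hd]; exact h1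
      · intro σ
        simp only [ept, yz, if_pos h]
        ring
    · refine ⟨yz m i j q, (1 / (m * (j + 4) - m * (i + 1))), ?_, ?_, ?_⟩
      · exact (one_div_pos.mpr hd).ne'
      · rw [abs_of_pos (one_div_pos.mpr hd), div_le_one hd]; exact h1
      · intro σ
        simp only [ept, yz, if_neg h]
        ring

lemma ept_proj_inj {m : ℕ} (hm : 0 < m) {e : Ed} (he : EV m e) {σ τ : ℝ} (h0 : 0 ≤ σ)
    (h1 : σ ≤ 1) (h0' : 0 ≤ τ) (h1' : τ ≤ 1) (h : proj (ept m e σ) = proj (ept m e τ)) :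
    σ = τ := by
  obtain ⟨y0, δ, hδ, hδ1, hy⟩ := ept_snd hm he
  obtain ⟨a, b, ha, -⟩ := (proj_eq_iff _ _).mp h
  rw [hy, hy] at ha
  have h2 : δ * (σ - τ) = 4 * a := by linarith
  have h3 : |δ * (σ - τ)| ≤ 1 := by
    rw [abs_mul]
    calc |δ| * |σ - τ| ≤ 1 * 1 := mul_le_mul hδ1 (abs_le.mpr ⟨by linarith, by linarith⟩)
          (abs_nonneg _) zero_le_one
      _ = 1 := by ring
  rw [h2] at h3
  have h4 := abs_le.mp h3
  have ha0 : a = 0 := by
    have h4' : (a : ℝ) < 1 := by linarith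
    have h5 : (-1 : ℝ) < a := by linarith
    have h6 : a < 1 := by exact_mod_cast h4'
    have h7 : -1 < a := by exact_mod_cast h5
    omega
  rw [ha0] at h2
  have h5 : δ * (σ - τ) = 0 := by rw [h2]; simp
  have h6 := (mul_eq_zero.mp h5).resolve_left hδ
  linarith

lemma reg_ept {m : ℕ} (hm : 0 < m) {e : Ed} (he : EV m e) {σ : ℝ} (h0 : 0 < σ) (h1 : σ < 1) :
    Reg (ept m e σ) := by
  cases e with
  | vert s c t => exact (ept_vert_cell he h0 h1).reg he.1
  | slant s c v => exact (ept_slant_cell he h0 h1).reg he.1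
  | tree i j q c => exact (ept_tree_cell hm he h0 h1).reg he.1 he.2.1

lemma reg_pos {m : ℕ} (hm : 0 < m) {w : W} (hw : WV m w) : Reg (pos m w) := by
  cases w with
  | hub s c t => exact (pos_hub_cell hw).reg hw.1
  | zone i j q c => exact (pos_zone_cell hm hw).reg hw.1 hw.2.1

/-- The graphs `G m` are toroidal. -/
theorem toroidal_GG {m : ℕ} (hm : 0 < m) : Toroidal (GG m) := by
  -- choose for every edge of the graph an abstract edge
  have hex : ∀ e : (GG m).edgeSet, ∃ f : Ed, EV m f ∧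
      s(lo m f, hi m f) = Sym2.map Subtype.val e.1 := by
    rintro ⟨e, he⟩
    induction e using Sym2.ind with
    | _ u v =>
      obtain ⟨f, hf, h⟩ := he
      exact ⟨f, hf, h⟩
  choose g hgV hg using hex
  have hginj : Function.Injective g := by
    intro e f h
    have h1 := hg e
    rw [h, hg f] at h1
    exact Subtype.ext (Sym2.map.injective Subtype.val_injective h1.symm)
  refine ⟨⟨fun w => proj (pos m w.1), ?_, fun e σ => proj (ept m (g e) σ), ?_, ?_, ?_, ?_⟩, ?_⟩
  · intro u v h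
    exact Subtype.ext (pos_inj hm u.2 v.2 (proj_injOn (reg_pos hm u.2) (reg_pos hm v.2) h))
  · intro e
    exact proj_continuous.comp ((ept_continuous m (g e)).comp continuous_subtype_val)
  · intro e σ τ h
    exact Subtype.ext (ept_proj_inj hm (hgV e) σ.2.1 σ.2.2 τ.2.1 τ.2.2 h)
  · intro e
    have h1 : proj (ept m (g e) ((0 : unitInterval) : ℝ)) = proj (pos m (lo m (g e))) := by
      exact ept_zero hm (hgV e)
    have h2 : proj (ept m (g e) ((1 : unitInterval) : ℝ)) = proj (pos m (hi m (g e))) := by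
      exact ept_one hm (hgV e)
    rw [h1, h2]
    have h3 : s(proj (pos m (lo m (g e))), proj (pos m (hi m (g e)))) =
        Sym2.map (fun w => proj (pos m w)) s(lo m (g e), hi m (g e)) := rfl
    rw [h3, hg e, Sym2.map_map]
    rfl
  · rintro e t ⟨ht0, ht1⟩ ⟨w, hw⟩
    have ht0' : (0 : ℝ) < t := ht0
    have ht1' : (t : ℝ) < 1 := ht1
    exact ept_ne_pos hm (hgV e) w.2 ht0' ht1'
      (proj_injOn (reg_ept hm (hgV e) ht0' ht1') (reg_pos hm w.2) hw.symm)
  · intro e f hef
    rw [Set.disjoint_left]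
    rintro x ⟨σ, ⟨hσ0, hσ1⟩, rfl⟩ ⟨τ, ⟨hτ0, hτ1⟩, h⟩
    have hσ0' : (0 : ℝ) < σ := hσ0
    have hσ1' : (σ : ℝ) < 1 := hσ1
    have hτ0' : (0 : ℝ) < τ := hτ0
    have hτ1' : (τ : ℝ) < 1 := hτ1
    have h1 := proj_injOn (reg_ept hm (hgV f) hτ0' hτ1') (reg_ept hm (hgV e) hσ0' hσ1') h
    exact hef (hginj (ept_inj hm (hgV e) (hgV f) hσ0' hσ1' hτ0' hτ1' h1.symm))

end Pool.Agent.H47
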