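import Mathlib

/-!
A van Kampen-Flores type statement for the complete bipartite graph with parts of size three:
for every continuous map of it to the plane there are two independent edges whose
images meet.
-/

set_option autoImplicit false

namespace Pool.Agent.H47

open Complex

/-- A nowhere vanishing continuous function on the plane has a continuous logarithm. -/
lemma exists_lift₂ (F : ℝ × ℝ → ℂ) (hF : Continuous F) (h0 : ∀ x, F x ≠ 0) :
    ∃ G : ℝ × ℝ → ℂ, Continuous G ∧ ∀ x, Complex.exp (G x) = F x := by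
  have hs : ∀ a : ℝ × ℝ, (⟨F, hF⟩ : C(ℝ × ℝ, ℂ)) a ∈ ({0}ᶜ : Set ℂ) := by
    intro a; simpa using h0 a
  have he : Complex.exp (Complex.log (F 0)) = (⟨F, hF⟩ : C(ℝ × ℝ, ℂ)) 0 := by
    simpa using Complex.exp_log (h0 0)
  obtain ⟨G, ⟨-, hG⟩, -⟩ := Complex.isCoveringMapOn_exp.existsUnique_continuousMap_lifts
    (⟨F, hF⟩ : C(ℝ × ℝ, ℂ)) he hs
  refine ⟨G, G.continuous, fun x => ?_⟩
  have := congrFun hG x
  simpa using this

lemma exists_lift₁ (F : ℝ → ℂ) (hF : Continuous F) (h0 : ∀ x, F x ≠ 0) :
    ∃ G : ℝ → ℂ, Continuous G ∧ ∀ x, Complex.exp (G x) = F x := by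
  obtain ⟨G, hG, h⟩ := exists_lift₂ (fun p => F p.1) (by fun_prop) (fun p => h0 p.1)
  exact ⟨fun x => G (x, 0), by fun_prop, fun x => h (x, 0)⟩

/-- Two continuous logarithms of functions with constant ratio have the same increments. -/
lemma incr_unique (L L' : ℝ → ℂ) (hL : Continuous L) (hL' : Continuous L') (c : ℂ)
    (h : ∀ x, Complex.exp (L' x) = c * Complex.exp (L x)) :
    L' 1 - L' 0 = L 1 - L 0 := by
  -- the function `D x = (L' x - L x - (L' 0 - L 0)) / (2 π I)` takes integer values
  have hc : c ≠ 0 := by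
    intro hc
    have := h 0
    rw [hc, zero_mul] at this
    exact Complex.exp_ne_zero _ this
  have key : ∀ x, ∃ n : ℤ, L' x - L x - (L' 0 - L 0) = n * (2 * Real.pi * I) := by
    intro x
    have h1 : Complex.exp (L' x - L x - (L' 0 - L 0)) = 1 := by
      rw [Complex.exp_sub, Complex.exp_sub, Complex.exp_sub, h x, h 0]
      have := Complex.exp_ne_zero (L x)
      have := Complex.exp_ne_zero (L 0)
      field_simp
    exact Complex.exp_eq_one_iff.mp h1
  choose n hn using key
  have hpi : (2 * Real.pi * I : ℂ) ≠ 0 := by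
    simp [Real.pi_ne_zero]
  have hcont : Continuous (fun x => (n x : ℂ)) := by
    have : (fun x => (n x : ℂ)) = fun x => (L' x - L x - (L' 0 - L 0)) / (2 * Real.pi * I) := by
      funext x; rw [hn x]; field_simp
    rw [this]; fun_prop
  have hcontR : Continuous (fun x => (n x : ℝ)) := by
    have := Complex.continuous_re.comp hcont
    simpa [Function.comp_def] using this
  have hcontZ : Continuous n := by
    have hemb : Topology.IsEmbedding (Int.cast : ℤ → ℝ) := Int.isClosedEmbedding_coe_real.isEmbedding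
    exact (hemb.continuous_iff).mpr hcontR
  have hconst : n 1 = n 0 := by
    exact PreconnectedSpace.constant inferInstance hcontZ
  have h1 := hn 1
  have h0 := hn 0
  rw [hconst] at h1
  have : L' 1 - L 1 - (L' 0 - L 0) = L' 0 - L 0 - (L' 0 - L 0) := by rw [h1, h0]
  linear_combination this


open Classical in
/-- The total increment over `[0, 1]` of a continuous logarithm of `f`. -/
noncomputable def incr (f : ℝ → ℂ) : ℂ :=
  if h : ∃ L : ℝ → ℂ, Continuous L ∧ ∀ x, Complex.exp (L x) = f x then
    h.choose 1 - h.choose 0 else 0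

lemma incr_eq (f : ℝ → ℂ) (hf : Continuous f) (h0 : ∀ x, f x ≠ 0) (L : ℝ → ℂ)
    (hL : Continuous L) (c : ℂ) (h : ∀ x, Complex.exp (L x) = c * f x) :
    incr f = L 1 - L 0 := by
  have hex := exists_lift₁ f hf h0
  unfold incr
  rw [dif_pos hex]
  symm
  apply incr_unique _ _ hex.choose_spec.1 hL c
  intro x
  rw [h x, hex.choose_spec.2 x]

lemma incr_log (f : ℝ → ℂ) (hf : Continuous f) (h0 : ∀ x, f x ≠ 0) :
    ∃ n : ℤ, incr f = Complex.log (f 1) - Complex.log (f 0) + n * (2 * Real.pi * I) := by
  obtain ⟨L, hL, h⟩ := exists_lift₁ f hf h0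
  have h1 : incr f = L 1 - L 0 := incr_eq f hf h0 L hL 1 (by simpa using h)
  have h2 : Complex.exp (L 1 - L 0) = Complex.exp (Complex.log (f 1) - Complex.log (f 0)) := by
    rw [Complex.exp_sub, Complex.exp_sub, h, h, Complex.exp_log (h0 1), Complex.exp_log (h0 0)]
  obtain ⟨n, hn⟩ := Complex.exp_eq_exp_iff_exists_int.mp h2
  exact ⟨n, by rw [h1, hn]⟩

lemma log_neg_odd (z : ℂ) (hz : z ≠ 0) :
    ∃ e : ℤ, Complex.log z - Complex.log (-z) = (2 * e + 1) * (Real.pi * I) := by
  have h1 : Complex.exp (Complex.log z - Complex.log (-z)) = Complex.exp (Real.pi * I) := by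
    rw [Complex.exp_sub, Complex.exp_log hz, Complex.exp_log (neg_ne_zero.mpr hz),
      Complex.exp_pi_mul_I]
    field_simp
  obtain ⟨n, hn⟩ := Complex.exp_eq_exp_iff_exists_int.mp h1
  exact ⟨n, by rw [hn]; ring⟩

/-- **van Kampen-Flores for `K₃,₃`**: any continuous map of `K₃,₃` into the plane has two
edges without common endpoint whose images meet. -/
theorem vkf (a b : Fin 3 → ℂ) (γ : ∀ i j : Fin 3, Path (a i) (b j)) :
    ∃ i k j l : Fin 3, i ≠ k ∧ j ≠ l ∧ ∃ s t, γ i j s = γ k l t := by
  by_contra hcon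
  push Not at hcon
  set g : Fin 3 → Fin 3 → ℝ → ℂ := fun i j => (γ i j).extend with hg
  have gc : ∀ i j, Continuous (g i j) := fun i j => (γ i j).continuous_extend
  have g0 : ∀ i j, g i j 0 = a i := fun i j => (γ i j).extend_zero
  have g1 : ∀ i j, g i j 1 = b j := fun i j => (γ i j).extend_one
  have H : ∀ i k j l : Fin 3, i ≠ k → j ≠ l → ∀ x y : ℝ, g i j x ≠ g k l y := by
    intro i k j l hik hjl x y h
    have hx : g i j x ∈ Set.range (γ i j) := by
      rw [← Path.extend_range]; exact ⟨x, rfl⟩
    have hy : g k l y ∈ Set.range (γ k l) := by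
      rw [← Path.extend_range]; exact ⟨y, rfl⟩
    obtain ⟨s, hs⟩ := hx
    obtain ⟨t, ht⟩ := hy
    exact hcon i k j l hik hjl s t (by rw [hs, ht, h])
  have other : ∀ i : Fin 3, ∃ k : Fin 3, k ≠ i := by decide
  have Ha : ∀ i k j, i ≠ k → ∀ x, g i j x - a k ≠ 0 := by
    intro i k j hik x h
    obtain ⟨l, hl⟩ := other j
    exact H i k j l hik hl.symm x 0 (by rw [g0]; exact sub_eq_zero.mp h)
  have Hb : ∀ i j l, j ≠ l → ∀ x, g i j x - b l ≠ 0 := by
    intro i j l hjl x h
    obtain ⟨k, hk⟩ := other i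
    exact H i k j l hk.symm hjl x 1 (by rw [g1]; exact sub_eq_zero.mp h)
  have star : ∀ i k j l : Fin 3, i ≠ k → j ≠ l →
      incr (fun x => g i j x - a k) + incr (fun x => g k l x - b j) =
      incr (fun x => g k l x - a i) + incr (fun x => g i j x - b l) := by
    intro i k j l hik hjl
    obtain ⟨G, hG, hGe⟩ := exists_lift₂ (fun p => g i j p.1 - g k l p.2)
      (by have := gc i j; have := gc k l; fun_prop)
      (fun p => sub_ne_zero.mpr (H i k j l hik hjl p.1 p.2))
    have e1 := incr_eq (fun x => g i j x - a k) (by have := gc i j; fun_prop)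
      (Ha i k j hik) (fun x => G (x, 0)) (by fun_prop) 1
      (fun x => by rw [hGe]; simp [g0])
    have e2 := incr_eq (fun x => g k l x - b j) (by have := gc k l; fun_prop)
      (Hb k l j hjl.symm) (fun x => G (1, x)) (by fun_prop) (-1)
      (fun x => by rw [hGe]; simp [g1])
    have e3 := incr_eq (fun x => g k l x - a i) (by have := gc k l; fun_prop)
      (Ha k i l hik.symm) (fun x => G (0, x)) (by fun_prop) (-1)
      (fun x => by rw [hGe]; simp [g0])
    have e4 := incr_eq (fun x => g i j x - b l) (by have := gc i j; fun_prop)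
      (Hb i j l hjl) (fun x => G (x, 1)) (by fun_prop) 1
      (fun x => by rw [hGe]; simp [g1])
    rw [e1, e2, e3, e4]
    ring
  -- integer data
  have nex : ∀ k i j : Fin 3, ∃ n : ℤ, i ≠ k → incr (fun x => g i j x - a k) =
      Complex.log (b j - a k) - Complex.log (a i - a k) + n * (2 * Real.pi * I) := by
    intro k i j
    by_cases hik : i = k
    · exact ⟨0, fun h => absurd hik h⟩
    · obtain ⟨n, hn⟩ := incr_log (fun x => g i j x - a k) (by have := gc i j; fun_prop)
        (Ha i k j hik)
      exact ⟨n, fun _ => by simpa [g0, g1] using hn⟩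
  have mex : ∀ l i j : Fin 3, ∃ n : ℤ, j ≠ l → incr (fun x => g i j x - b l) =
      Complex.log (b j - b l) - Complex.log (a i - b l) + n * (2 * Real.pi * I) := by
    intro l i j
    by_cases hjl : j = l
    · exact ⟨0, fun h => absurd hjl h⟩
    · obtain ⟨n, hn⟩ := incr_log (fun x => g i j x - b l) (by have := gc i j; fun_prop)
        (Hb i j l hjl)
      exact ⟨n, fun _ => by simpa [g0, g1] using hn⟩
  choose n hn using nex
  choose m hm using mex
  have aa : ∀ i k, i ≠ k → a k - a i ≠ 0 := by
    intro i k hik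
    have := Ha k i 0 hik.symm 0
    rwa [g0] at this
  have bb : ∀ j l, j ≠ l → b l - b j ≠ 0 := by
    intro j l hjl
    have := Hb 0 l j hjl.symm 1
    rwa [g1] at this
  have ab : ∀ k j, b j - a k ≠ 0 := by
    intro k j
    obtain ⟨i, hi⟩ := other k
    have := Ha i k j hi 1
    rwa [g1] at this
  have Pex : ∀ k j : Fin 3, ∃ e : ℤ, Complex.log (b j - a k) - Complex.log (a k - b j) =
      (2 * e + 1) * (Real.pi * I) := by
    intro k j
    obtain ⟨e, he⟩ := log_neg_odd _ (ab k j)
    exact ⟨e, by rw [← he]; congr 2; ring⟩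
  have Qex : ∀ i k : Fin 3, ∃ e : ℤ, i ≠ k → Complex.log (a k - a i) - Complex.log (a i - a k) =
      (2 * e + 1) * (Real.pi * I) := by
    intro i k
    by_cases hik : i = k
    · exact ⟨0, fun h => absurd hik h⟩
    · obtain ⟨e, he⟩ := log_neg_odd _ (aa i k hik)
      exact ⟨e, fun _ => by rw [← he]; congr 2; ring⟩
  have Rex : ∀ j l : Fin 3, ∃ e : ℤ, j ≠ l → Complex.log (b l - b j) - Complex.log (b j - b l) =
      (2 * e + 1) * (Real.pi * I) := by
    intro j l
    by_cases hjl : j = l
    · exact ⟨0, fun h => absurd hjl h⟩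
    · obtain ⟨e, he⟩ := log_neg_odd _ (bb j l hjl)
      exact ⟨e, fun _ => by rw [← he]; congr 2; ring⟩
  choose P hP using Pex
  choose Q hQ using Qex
  choose R hR using Rex
  have hpi : (Real.pi * I : ℂ) ≠ 0 := by simp [Real.pi_ne_zero]
  have anti : ∀ j l, j ≠ l → R j l + R l j + 1 = 0 := by
    intro j l hjl
    have h1 := hR j l hjl
    have h2 := hR l j hjl.symm
    have h3 : ((2 * (R j l + R l j + 1) : ℤ) : ℂ) * (Real.pi * I) = 0 := by
      push_cast
      linear_combination -h1 - h2
    have h4 := (mul_eq_zero.mp h3).resolve_right hpi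
    have h5 : 2 * (R j l + R l j + 1) = 0 := by exact_mod_cast h4
    omega
  have eqn : ∀ i k j l : Fin 3, i ≠ k → j ≠ l →
      P k j - P i l + Q i k + R j l + 1 + n k i j + m j k l - n i k l - m l i j = 0 := by
    intro i k j l hik hjl
    have h := star i k j l hik hjl
    rw [hn k i j hik, hm j k l hjl.symm, hn i k l hik.symm, hm l i j hjl] at h
    have h1 := hP k j
    have h2 := hP i l
    have h3 := hQ i k hik
    have h4 := hR j l hjl
    have h5 : ((2 * (P k j - P i l + Q i k + R j l + 1 + n k i j + m j k l - n i k l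
        - m l i j) : ℤ) : ℂ) * (Real.pi * I) = 0 := by
      push_cast
      linear_combination h - h1 + h2 - h3 - h4
    have h6 := (mul_eq_zero.mp h5).resolve_right hpi
    have h7 : 2 * (P k j - P i l + Q i k + R j l + 1 + n k i j + m j k l - n i k l
        - m l i j) = 0 := by exact_mod_cast h6
    omega
  have r1 := anti 0 1 (by decide)
  have r2 := anti 0 2 (by decide)
  have r3 := anti 1 2 (by decide)
  have q1 := eqn 0 1 0 1 (by decide) (by decide)
  have q2 := eqn 0 1 1 0 (by decide) (by decide)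
  have q3 := eqn 0 1 0 2 (by decide) (by decide)
  have q4 := eqn 0 1 2 0 (by decide) (by decide)
  have q5 := eqn 0 1 1 2 (by decide) (by decide)
  have q6 := eqn 0 1 2 1 (by decide) (by decide)
  have q7 := eqn 0 2 0 1 (by decide) (by decide)
  have q8 := eqn 0 2 1 0 (by decide) (by decide)
  have q9 := eqn 0 2 0 2 (by decide) (by decide)
  have q10 := eqn 0 2 2 0 (by decide) (by decide)
  have q11 := eqn 0 2 1 2 (by decide) (by decide)
  have q12 := eqn 0 2 2 1 (by decide) (by decide)
  have q13 := eqn 1 2 0 1 (by decide) (by decide)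
  have q14 := eqn 1 2 1 0 (by decide) (by decide)
  have q15 := eqn 1 2 0 2 (by decide) (by decide)
  have q16 := eqn 1 2 2 0 (by decide) (by decide)
  have q17 := eqn 1 2 1 2 (by decide) (by decide)
  have q18 := eqn 1 2 2 1 (by decide) (by decide)
  omega

end Pool.Agent.H47
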