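import Pool.Agent.H47.TorDraw
import Pool.Agent.H47.TorCount
import Pool.Agent.H47.VKF

/-!
# `G m` is far from `k`-planar
-/

set_option autoImplicit false

namespace Pool.Agent.H47

lemma Drawing.joined {V : Type*} {G : SimpleGraph V} {X : Type*} [TopologicalSpace X]
    (D : Drawing G X) (e : G.edgeSet) (u v : V) (h : e.1 = s(u, v)) :
    JoinedIn (Set.range (D.curve e)) (D.pt u) (D.pt v) := by
  have h0 : JoinedIn (Set.range (D.curve e)) (D.curve e 0) (D.curve e 1) :=
    ⟨⟨⟨D.curve e, D.curve_continuous e⟩, rfl, rfl⟩, fun t => ⟨t, rfl⟩⟩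
  have h1 := D.curve_ends e
  rw [h, Sym2.map_mk, Sym2.eq_iff] at h1
  rcases h1 with ⟨h1, h2⟩ | ⟨h1, h2⟩
  · rw [h1, h2] at h0; exact h0
  · rw [h1, h2] at h0; exact h0.symm

/-- A point of the curve of an edge is the image of an end or an interior point. -/
lemma Drawing.mem_curve {V : Type*} {G : SimpleGraph V} {X : Type*} [TopologicalSpace X]
    (D : Drawing G X) (e : G.edgeSet) (u v : V) (h : e.1 = s(u, v)) (x : X)
    (hx : x ∈ Set.range (D.curve e)) : x = D.pt u ∨ x = D.pt v ∨ x ∈ D.interior e := by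
  obtain ⟨t, rfl⟩ := hx
  have h1 := D.curve_ends e
  rw [h, Sym2.map_mk, Sym2.eq_iff] at h1
  by_cases h2 : t = 0
  · subst h2
    rcases h1 with ⟨h1, h2⟩ | ⟨h1, h2⟩
    · exact Or.inl h1
    · exact Or.inr (Or.inl h1)
  by_cases h3 : t = 1
  · subst h3
    rcases h1 with ⟨h1, h2⟩ | ⟨h1, h2⟩
    · exact Or.inr (Or.inl h2)
    · exact Or.inl h2
  right; right
  exact ⟨t, ⟨lt_of_le_of_ne (unitInterval.nonneg t) (fun h => h2 h.symm),
    lt_of_le_of_ne (unitInterval.le_one t) (fun h => h3 h)⟩, rfl⟩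

lemma Drawing.interior_avoids {V : Type*} {G : SimpleGraph V} {X : Type*} [TopologicalSpace X]
    (D : Drawing G X) (e : G.edgeSet) (w : V) : D.pt w ∉ D.interior e := by
  rintro ⟨t, ht, h⟩
  exact D.curve_avoids e t ht ⟨w, h.symm⟩

lemma finite_EV {m : ℕ} (hm : 0 < m) : {e : Ed | EV m e}.Finite := by
  apply Set.Finite.of_injOn (f := fun e => s(lo m e, hi m e))
    (t := Set.range (Sym2.map (Subtype.val : {w : W // WV m w} → W)))
  · intro e he
    exact ⟨s(⟨lo m e, WV_lo hm he⟩, ⟨hi m e, WV_hi hm he⟩), rfl⟩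
  · intro e he f hf h
    exact edge_inj he hf h
  · exact Set.finite_range _

/-- The vertices of the `i, j`-th path system. -/
def UU (m i j : ℕ) : W → Prop
  | .hub s _ _ => s = i ∨ s = j + 3
  | .zone i' j' q _ => (i' = i ∧ j' = j) ∨ (i' = i ∧ q = m * (i + 1)) ∨ (j' = j ∧ q = m * (j + 4))

lemma UU_vert {m i j s c t : ℕ} (hi3 : i < 3) (hs : s = i ∨ s = j + 3) :
    UU m i j (lo m (.vert s c t)) ∧ UU m i j (hi m (.vert s c t)) := by
  constructor
  · simp only [lo, botW]
    rcases hs with rfl | rfl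
    · split_ifs <;> simp [UU]
    · split_ifs with h1 h2 <;> simp [UU]
      omega
  · simp only [hi, topW]
    rcases hs with rfl | rfl
    · split_ifs <;> simp [UU]
    · split_ifs with h1 h2 <;> simp [UU]
      all_goals omega

lemma UU_slant {m i j s c v : ℕ} (hs : s = i ∨ s = j + 3) :
    UU m i j (lo m (.slant s c v)) ∧ UU m i j (hi m (.slant s c v)) := by
  simp [lo, hi, UU, hs]

lemma UU_tree {m i j q c : ℕ} :
    UU m i j (lo m (.tree i j q c)) ∧ UU m i j (hi m (.tree i j q c)) := by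
  simp [lo, hi, UU]

lemma UU_part {m : ℕ} {i j : Fin 3} {p : Fin 5} {x : ℕ} {e : Ed}
    (he : e ∈ part m i j p x) : UU m i j (lo m e) ∧ UU m i j (hi m e) := by
  have hi3 := i.2
  unfold part at he
  obtain ⟨hV, he⟩ := he
  split_ifs at he
  · rcases he with ⟨c, rfl⟩ | ⟨c, rfl⟩
    · exact UU_vert hi3 (Or.inl rfl)
    · exact UU_slant (Or.inl rfl)
  · obtain ⟨t, rfl⟩ := he
    exact UU_vert hi3 (Or.inl rfl)
  · obtain ⟨q, rfl⟩ := he
    exact UU_tree
  · obtain ⟨t, rfl⟩ := he
    exact UU_vert hi3 (Or.inr rfl)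
  · rcases he with ⟨c, rfl⟩ | ⟨c, rfl⟩
    · exact UU_vert hi3 (Or.inr rfl)
    · exact UU_slant (Or.inr rfl)

lemma UU_disjoint {m i j k l : ℕ} (hm : 0 < m) (hi3 : i < 3) (hk3 : k < 3) (hik : i ≠ k)
    (hjl : j ≠ l) (w : W) (h : UU m i j w) (h' : UU m k l w) : False := by
  cases w with
  | hub s c t =>
    simp only [UU] at h h'
    omega
  | zone i' j' q c =>
    have h1 := exp_lt hm hi3 (j := l)
    have h2 := exp_lt hm hk3 (j := j)
    simp only [UU] at h h'
    rcases h with ⟨h3, h4⟩ | ⟨h3, h4⟩ | ⟨h3, h4⟩ <;>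
      rcases h' with ⟨h5, h6⟩ | ⟨h5, h6⟩ | ⟨h5, h6⟩ <;>
      first
        | exact hik (h3.symm.trans h5)
        | exact hjl (h4.symm.trans h5)
        | exact hjl (h3.symm.trans h5)
        | exact hjl (h3.symm.trans h6)
        | omega


/-- adjacency through an edge of `Q` -/
def adjQ (m : ℕ) (Q : Set Ed) (w w' : W) : Prop := ∃ e ∈ Q, lo m e = w ∧ hi m e = w'

lemma adjQ_rel {m : ℕ} {Q : Set Ed} {e : Ed} (he : e ∈ Q) :
    Relation.EqvGen (adjQ m Q) (lo m e) (hi m e) := Relation.EqvGen.rel _ _ ⟨e, he, rfl, rfl⟩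

lemma row_conn {m s v : ℕ} {Q : Set Ed} (hs : s < 6) (hv : v < NN m s)
    (hQ : ∀ e, EV m e → e ∈ Row s v → e ∈ Q) (c : ℕ) (hc : c < 2 * NN m s) :
    Relation.EqvGen (adjQ m Q) (.hub s 0 (2 * v + 1)) (.hub s c (2 * v + 1)) := by
  induction c with
  | zero => exact Relation.EqvGen.refl _
  | succ c ih =>
    have h1 := ih (by omega)
    have hV1 : EV m (.vert s c (2 * v + 1)) := ⟨hs, by omega, by omega, by omega, by omega⟩
    have hV2 : EV m (.slant s c v) := ⟨hs, hc, hv⟩
    have h2 := adjQ_rel (m := m) (hQ _ hV1 (Or.inl ⟨c, rfl⟩))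
    have h3 := adjQ_rel (m := m) (hQ _ hV2 (Or.inr ⟨c, rfl⟩))
    have e1 : lo m (.vert s c (2 * v + 1)) = .hub s c (2 * v + 1) := by
      simp only [lo]; rw [if_neg (by omega)]
    have e2 : hi m (.vert s c (2 * v + 1)) = .hub s c (2 * v + 2) := by
      simp only [hi]; rw [if_neg (by omega)]
    rw [e1, e2] at h2
    exact (h1.trans _ _ _ h2).trans _ _ _ h3.symm

lemma col_conn {m s c : ℕ} {Q : Set Ed} (hs : s < 6) (hc : c < 2 * NN m s)
    (hQ : ∀ e, EV m e → e ∈ Col s c → e ∈ Q) (t : ℕ) (ht : t + 1 ≤ 2 * NN m s) :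
    Relation.EqvGen (adjQ m Q) (.hub s c 1) (.hub s c (t + 1)) := by
  induction t with
  | zero => exact Relation.EqvGen.refl _
  | succ t ih =>
    have h1 := ih (by omega)
    have hV1 : EV m (.vert s c (t + 1)) := ⟨hs, by omega, by omega, by omega, by omega⟩
    have h2 := adjQ_rel (m := m) (hQ _ hV1 ⟨_, rfl⟩)
    have e1 : lo m (.vert s c (t + 1)) = .hub s c (t + 1) := by
      simp only [lo]; rw [if_neg (by omega)]
    have e2 : hi m (.vert s c (t + 1)) = .hub s c (t + 1 + 1) := by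
      simp only [hi]; rw [if_neg (by omega)]
    rw [e1, e2] at h2
    exact h1.trans _ _ _ h2

lemma col_top {m s c : ℕ} {Q : Set Ed} (hs : s < 6) (hc : c < 2 * NN m s)
    (hp : 3 ≤ s → c < NN m s)
    (hQ : ∀ e, EV m e → e ∈ Col s c → e ∈ Q) :
    Relation.EqvGen (adjQ m Q) (.hub s c 1) (topW m s c) := by
  have hN := NN_pos m s
  have h1 := col_conn hs hc hQ (2 * NN m s - 1) (by omega)
  have e0 : 2 * NN m s - 1 + 1 = 2 * NN m s := by omega
  rw [e0] at h1
  have hV1 : EV m (.vert s c (2 * NN m s)) := ⟨hs, hc, le_rfl, by omega, fun _ => hp⟩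
  have h2 := adjQ_rel (m := m) (hQ _ hV1 ⟨_, rfl⟩)
  have e1 : lo m (.vert s c (2 * NN m s)) = .hub s c (2 * NN m s) := by
    simp only [lo]; rw [if_neg (by omega)]
  have e2 : hi m (.vert s c (2 * NN m s)) = topW m s c := by
    simp only [hi]; rw [if_pos trivial]
  rw [e1, e2] at h2
  exact h1.trans _ _ _ h2

lemma col_bot {m s c : ℕ} {Q : Set Ed} (hs : s < 6) (hc : c < 2 * NN m s)
    (hp : s < 3 → c < NN m s)
    (hQ : ∀ e, EV m e → e ∈ Col s c → e ∈ Q) :
    Relation.EqvGen (adjQ m Q) (.hub s c 1) (botW m s c) := by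
  have hN := NN_pos m s
  have hV1 : EV m (.vert s c 0) := ⟨hs, hc, by omega, fun _ => hp, by omega⟩
  have h2 := adjQ_rel (m := m) (hQ _ hV1 ⟨_, rfl⟩)
  have e1 : lo m (.vert s c 0) = botW m s c := by
    simp only [lo]; rw [if_pos trivial]
  have e2 : hi m (.vert s c 0) = .hub s c 1 := by
    simp only [hi]; rw [if_neg (by omega)]
  rw [e1, e2] at h2
  exact h2.symm

lemma portA {m i j r : ℕ} {Q : Set Ed} (hi3 : i < 3) (hj3 : j < 3) (hr : r < NN m i)
    (hQ : ∀ e, EV m e → e ∈ Col i (pcA m i j r) → e ∈ Q) :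
    pcA m i j r < 2 * NN m i ∧
    Relation.EqvGen (adjQ m Q) (.hub i (pcA m i j r) 1) (.zone i j (m * (i + 1)) r) := by
  have hN := NN_pos m i
  have hc : pcA m i j r < 2 * NN m i := by unfold pcA; split_ifs <;> omega
  refine ⟨hc, ?_⟩
  by_cases h1 : j = i
  · subst h1
    have h := col_top (by omega) hc (by omega) hQ
    have e : topW m j (pcA m j j r) = .zone j j (m * (j + 1)) r := by
      simp only [topW, pcA, if_pos hi3, if_true]
      rw [if_neg (by omega)]
      congr 1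
      omega
    rw [e] at h
    exact h
  · have hp : pcA m i j r = r := by simp [pcA, h1]
    by_cases h2 : j = (i + 2) % 3
    · have h := col_top (by omega) hc (by omega) hQ
      have e : topW m i (pcA m i j r) = .zone i j (m * (i + 1)) r := by
        rw [hp]
        simp only [topW, if_pos hi3, if_pos hr]
        rw [← h2]
      rw [e] at h
      exact h
    · have h3 : j = (i + 1) % 3 := by omega
      have h := col_bot (by omega) hc (by omega) hQ
      have e : botW m i (pcA m i j r) = .zone i j (m * (i + 1)) r := by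
        rw [hp]
        simp only [botW, if_pos hi3]
        rw [← h3]
      rw [e] at h
      exact h

lemma portB {m i j r : ℕ} {Q : Set Ed} (hi3 : i < 3) (hj3 : j < 3) (hr : r < NN m (j + 3))
    (hQ : ∀ e, EV m e → e ∈ Col (j + 3) (pcB m i j r) → e ∈ Q) :
    pcB m i j r < 2 * NN m (j + 3) ∧
    Relation.EqvGen (adjQ m Q) (.hub (j + 3) (pcB m i j r) 1) (.zone i j (m * (j + 4)) r) := by
  have hN := NN_pos m (j + 3)
  have hc : pcB m i j r < 2 * NN m (j + 3) := by unfold pcB; split_ifs <;> omega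
  refine ⟨hc, ?_⟩
  have hn3 : ¬ (j + 3 < 3) := by omega
  by_cases h1 : i = (j + 1) % 3
  · have h := col_bot (by omega) hc (by omega) hQ
    have e : botW m (j + 3) (pcB m i j r) = .zone i j (m * (j + 4)) r := by
      simp only [botW, pcB, if_neg hn3, if_pos h1]
      rw [if_neg (by omega)]
      have e1 : (j + 3 - 2) % 3 = i := by omega
      have e2 : j + 3 - 3 = j := by omega
      have e3 : NN m (j + 3) + r - NN m (j + 3) = r := by omega
      rw [e1, e2, e3]
    rw [e] at h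
    exact h
  · have hp : pcB m i j r = r := by simp [pcB, h1]
    by_cases h2 : i = j
    · have h := col_bot (by omega) hc (by omega) hQ
      have e : botW m (j + 3) (pcB m i j r) = .zone i j (m * (j + 4)) r := by
        rw [hp]
        simp only [botW, if_neg hn3, if_pos hr]
        have e2 : j + 3 - 3 = j := by omega
        rw [e2, h2]
      rw [e] at h
      exact h
    · have h3 : i = (j + 2) % 3 := by omega
      have h := col_top (by omega) hc (fun _ => by rw [hp]; exact hr) hQ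
      have e : topW m (j + 3) (pcB m i j r) = .zone i j (m * (j + 4)) r := by
        rw [hp]
        simp only [topW, if_neg hn3]
        have e1 : (j + 3 - 1) % 3 = i := by omega
        have e2 : j + 3 - 3 = j := by omega
        rw [e1, e2]
      rw [e] at h
      exact h

lemma tree_conn {m i j x : ℕ} {Q : Set Ed} (hi3 : i < 3) (hj3 : j < 3) (hx : x < 2 ^ (6 * m))
    (hQ : ∀ e, EV m e → e ∈ TPath m i j x → e ∈ Q) (q : ℕ)
    (hq : m * (i + 1) + q ≤ m * (j + 4)) :
    Relation.EqvGen (adjQ m Q) (.zone i j (m * (i + 1)) (x / 2 ^ (6 * m - m * (i + 1))))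
      (.zone i j (m * (i + 1) + q) (x / 2 ^ (6 * m - (m * (i + 1) + q)))) := by
  have hjm : m * (j + 4) ≤ m * 6 := Nat.mul_le_mul_left _ (by omega)
  induction q with
  | zero => exact Relation.EqvGen.refl _
  | succ q ih =>
    have h1 := ih (by omega)
    set a := m * (i + 1) + q with ha
    have hlt : a + 1 ≤ 6 * m := by omega
    have hc : x / 2 ^ (6 * m - a - 1) < 2 ^ (a + 1) := by
      rw [Nat.div_lt_iff_lt_mul (by positivity), ← pow_add]
      have : a + 1 + (6 * m - a - 1) = 6 * m := by omega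
      rw [this]; exact hx
    have hV : EV m (.tree i j a (x / 2 ^ (6 * m - a - 1))) :=
      ⟨hi3, hj3, by omega, by omega, hc⟩
    have h2 := adjQ_rel (m := m) (hQ _ hV ⟨a, rfl⟩)
    have e1 : lo m (.tree i j a (x / 2 ^ (6 * m - a - 1))) = .zone i j a (x / 2 ^ (6 * m - a)) := by
      simp only [lo]
      rw [Nat.div_div_eq_div_mul]
      congr 2
      rw [← pow_succ]
      congr 1
      omega
    have e2 : hi m (.tree i j a (x / 2 ^ (6 * m - a - 1))) =
        .zone i j (m * (i + 1) + (q + 1)) (x / 2 ^ (6 * m - (m * (i + 1) + (q + 1)))) := by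
      simp only [hi]
      have : m * (i + 1) + (q + 1) = a + 1 := by omega
      rw [this]
      have : 6 * m - (a + 1) = 6 * m - a - 1 := by omega
      rw [this]
    rw [e1, e2] at h2
    exact h1.trans _ _ _ h2

/-- The union of all parts belonging to the pair `i, j`. -/
def QQ (m : ℕ) (ω : Idx → Fin (2 ^ (6 * m))) (i j : Fin 3) : Set Ed :=
  {e | ∃ p, e ∈ part m i j p (ω (co i j p))}

/-- start vertex in hub `s` -/
def startW (m : ℕ) (x s : ℕ) : W := .hub s 0 (2 * (x / 2 ^ (6 * m - m * (s + 1))) + 1)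

lemma div_lt_NN {m s x : ℕ} (hs : s < 6) (hx : x < 2 ^ (6 * m)) :
    x / 2 ^ (6 * m - m * (s + 1)) < NN m s := by
  rw [Nat.div_lt_iff_lt_mul (by positivity)]
  unfold NN
  rw [← pow_add]
  have h1 : m * (s + 1) ≤ m * 6 := Nat.mul_le_mul_left _ (by omega)
  have : m * (s + 1) + (6 * m - m * (s + 1)) = 6 * m := by omega
  rw [this]; exact hx

lemma QQ_conn {m : ℕ} (hm : 0 < m) (ω : Idx → Fin (2 ^ (6 * m))) (i j : Fin 3) :
    Relation.EqvGen (adjQ m (QQ m ω i j)) (startW m (ω (.rowA i)) i)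
      (startW m (ω (.rowB j)) (j + 3)) := by
  have hi3 := i.2
  have hj3 := j.2
  set Q := QQ m ω i j with hQdef
  have hQ0 : ∀ e, EV m e → e ∈ Row i ((ω (.rowA i)).val / 2 ^ (6 * m - m * (i + 1))) → e ∈ Q := by
    intro e he h
    refine ⟨0, he, ?_⟩
    simpa [co] using h
  have hQ1 : ∀ e, EV m e →
      e ∈ Col i (pcA m i j ((ω (.leaf i j)).val / 2 ^ (6 * m - m * (i + 1)))) → e ∈ Q := by
    intro e he h
    refine ⟨1, he, ?_⟩
    simpa [co] using h
  have hQ2 : ∀ e, EV m e → e ∈ TPath m i j (ω (.leaf i j)) → e ∈ Q := by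
    intro e he h
    refine ⟨2, he, ?_⟩
    simpa [co] using h
  have hQ3 : ∀ e, EV m e →
      e ∈ Col (j + 3) (pcB m i j ((ω (.leaf i j)).val / 2 ^ (6 * m - m * (j + 4)))) → e ∈ Q := by
    intro e he h
    refine ⟨3, he, ?_⟩
    simpa [co] using h
  have hQ4 : ∀ e, EV m e →
      e ∈ Row (j + 3) ((ω (.rowB j)).val / 2 ^ (6 * m - m * (j + 4))) → e ∈ Q := by
    intro e he h
    refine ⟨4, he, ?_⟩
    simpa [co] using h
  have e4 : (j : ℕ) + 3 + 1 = j + 4 := by omega
  -- in hub i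
  have a0 : (ω (.rowA i)).val / 2 ^ (6 * m - m * (i + 1)) < NN m i :=
    div_lt_NN (by omega) (ω (.rowA i)).2
  have a1 : (ω (.leaf i j)).val / 2 ^ (6 * m - m * (i + 1)) < NN m i :=
    div_lt_NN (by omega) (ω (.leaf i j)).2
  obtain ⟨hcA, hA⟩ := portA hi3 hj3 a1 hQ1
  have r1 := row_conn (by omega) a0 hQ0 _ hcA
  have c1 := col_conn (by omega) hcA hQ1 (2 * ((ω (.rowA i)).val / 2 ^ (6 * m - m * (i + 1))))
    (by omega)
  -- the tree
  have t1 := tree_conn hi3 hj3 (ω (.leaf i j)).2 hQ2 (m * (j + 4) - m * (i + 1))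
    (by have := exp_lt hm hi3 (j := j); omega)
  have e5 : m * ((i : ℕ) + 1) + (m * (j + 4) - m * (i + 1)) = m * (j + 4) := by
    have := exp_lt hm hi3 (j := j); omega
  rw [e5] at t1
  -- in hub j + 3
  have b0 : (ω (.rowB j)).val / 2 ^ (6 * m - m * (j + 4)) < NN m (j + 3) := by
    have := div_lt_NN (m := m) (s := j + 3) (by omega) (ω (.rowB j)).2
    rwa [e4] at this
  have b1 : (ω (.leaf i j)).val / 2 ^ (6 * m - m * (j + 4)) < NN m (j + 3) := by
    have := div_lt_NN (m := m) (s := j + 3) (by omega) (ω (.leaf i j)).2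
    rwa [e4] at this
  obtain ⟨hcB, hB⟩ := portB hi3 hj3 b1 hQ3
  have r2 := row_conn (by omega) b0 hQ4 _ hcB
  have c2 := col_conn (by omega) hcB hQ3 (2 * ((ω (.rowB j)).val / 2 ^ (6 * m - m * (j + 4))))
    (by omega)
  unfold startW
  rw [e4]
  exact ((((((r1.trans _ _ _ c1.symm).trans _ _ _ hA).trans _ _ _ t1).trans _ _ _ hB.symm).trans
    _ _ _ c2).trans _ _ _ r2.symm)


/-- After deleting at most `k` edges, `G m` is not `k`-planar, for `m` large. -/
theorem not_kplanar {m k : ℕ} (hm : 0 < m) (hk : 12150 * k * m + 45 * k < 2 ^ m)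
    (F : Set (Sym2 {w : W // WV m w})) (hFc : F.ncard ≤ k) :
    ¬ KPlanar k ((GG m).deleteEdges F) := by
  intro hK
  set H := (GG m).deleteEdges F with hH
  obtain ⟨D, -, hD⟩ := hK
  -- the deleted edges as abstract edges
  set F' : Set Ed := {e | EV m e ∧ ∃ f ∈ F, Sym2.map Subtype.val f = s(lo m e, hi m e)} with hF'
  have hF'fin : F'.Finite := (finite_EV hm).subset (fun e he => he.1)
  have hF'c : F'.ncard ≤ k := by
    have hch : ∀ e : Ed, ∃ f : Sym2 {w : W // WV m w}, e ∈ F' →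
        f ∈ F ∧ Sym2.map Subtype.val f = s(lo m e, hi m e) := by
      intro e
      by_cases he : e ∈ F'
      · obtain ⟨-, f, hf, h⟩ := he
        exact ⟨f, fun _ => ⟨hf, h⟩⟩
      · exact ⟨s(⟨.hub 0 0 1, by
          have := NN_pos m 0
          exact ⟨by omega, by omega, by omega, by omega⟩⟩, ⟨.hub 0 0 1, by
          have := NN_pos m 0
          exact ⟨by omega, by omega, by omega, by omega⟩⟩), fun h => absurd h he⟩
    choose f hf using hch
    refine le_trans (Set.ncard_le_ncard_of_injOn f (fun e he => (hf e he).1) ?_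
      (Set.toFinite F)) hFc
    intro e he e' he' h
    apply edge_inj he.1 he'.1
    rw [← (hf e he).2, ← (hf e' he').2, h]
  -- the crossing relation
  set X : Ed → Ed → Prop := fun g h => ∃ g' h' : H.edgeSet,
    Sym2.map Subtype.val g'.1 = s(lo m g, hi m g) ∧
    Sym2.map Subtype.val h'.1 = s(lo m h, hi m h) ∧
    g' ≠ h' ∧ (D.interior g' ∩ D.interior h').Nonempty with hX
  have hXsymm : ∀ g h, X g h → X h g := by
    rintro g h ⟨g', h', h1, h2, h3, h4⟩
    exact ⟨h', g', h2, h1, h3.symm, by rwa [Set.inter_comm]⟩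
  have hXk : ∀ g, EV m g → {h | EV m h ∧ X g h}.Finite ∧ {h | EV m h ∧ X g h}.ncard ≤ k := by
    intro g hg
    refine ⟨(finite_EV hm).subset (fun e he => he.1), ?_⟩
    by_cases hne : ∃ g' : H.edgeSet, Sym2.map Subtype.val g'.1 = s(lo m g, hi m g)
    swap
    · have : {h | EV m h ∧ X g h} = ∅ := by
        ext h
        simp only [Set.mem_ofPred_eq, Set.mem_empty_iff_false, iff_false]
        rintro ⟨-, g', h', h1, -⟩
        exact hne ⟨g', h1⟩
      rw [this]; simp
    obtain ⟨g0, hg0⟩ := hne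
    have huniq : ∀ g' : H.edgeSet, Sym2.map Subtype.val g'.1 = s(lo m g, hi m g) → g' = g0 := by
      intro g' h
      exact Subtype.ext (Sym2.map.injective Subtype.val_injective (h.trans hg0.symm))
    set C : Set H.edgeSet := {h' | h' ≠ g0 ∧ (D.interior g0 ∩ D.interior h').Nonempty} with hC
    have hCfin : C.Finite := Set.toFinite C
    have hCk : C.ncard ≤ k := by
      have h1 := hD g0
      have h2 : C ⊆ Prod.fst ''
          {c : H.edgeSet × (ℝ × ℝ) | c.1 ≠ g0 ∧ c.2 ∈ D.interior g0 ∩ D.interior c.1} := by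
        rintro h' ⟨h3, x, hx⟩
        exact ⟨(h', x), ⟨h3, hx⟩, rfl⟩
      have h3 : C.encard ≤ k := (Set.encard_le_encard h2).trans ((Set.encard_image_le _ _).trans h1)
      rw [← hCfin.cast_ncard_eq] at h3
      exact_mod_cast h3
    have hch : ∀ h : Ed, ∃ h' : H.edgeSet, h ∈ {h | EV m h ∧ X g h} →
        h' ∈ C ∧ Sym2.map Subtype.val h'.1 = s(lo m h, hi m h) := by
      intro h
      by_cases hh : h ∈ {h | EV m h ∧ X g h}
      · obtain ⟨-, g', h', h1, h2, h3, h4⟩ := hh
        obtain rfl := huniq g' h1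
        exact ⟨h', fun _ => ⟨⟨h3.symm, h4⟩, h2⟩⟩
      · exact ⟨g0, fun h => absurd h hh⟩
    choose f hf using hch
    refine le_trans (Set.ncard_le_ncard_of_injOn f (fun e he => (hf e he).1) ?_ hCfin) hCk
    intro e he e' he' h
    apply edge_inj he.1 he'.1
    rw [← (hf e he).2, ← (hf e' he').2, h]
  obtain ⟨ω, hω1, hω2⟩ := exists_good hm hk X hXsymm hXk F' hF'fin hF'c
  -- abstract edges of the path systems are edges of `H`
  have hedge : ∀ i j, ∀ e ∈ QQ m ω i j, ∃ e' : H.edgeSet, ∃ u v : {w : W // WV m w},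
      e'.1 = s(u, v) ∧ u.1 = lo m e ∧ v.1 = hi m e := by
    rintro i j e ⟨p, he⟩
    have hV : EV m e := he.1
    refine ⟨⟨s(⟨lo m e, WV_lo hm hV⟩, ⟨hi m e, WV_hi hm hV⟩), ?_⟩, _, _, rfl, rfl, rfl⟩
    rw [hH, SimpleGraph.mem_edgeSet, SimpleGraph.deleteEdges_adj]
    refine ⟨⟨e, hV, rfl⟩, ?_⟩
    intro hF
    exact hω1 i j p e he ⟨hV, _, hF, rfl⟩
  -- the regions
  set R : Fin 3 → Fin 3 → Set (ℝ × ℝ) := fun i j =>
    {x | ∃ w : {w : W // WV m w}, UU m i j w.1 ∧ x = D.pt w} ∪
    {x | ∃ e ∈ QQ m ω i j, ∃ e' : H.edgeSet, Sym2.map Subtype.val e'.1 = s(lo m e, hi m e) ∧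
      x ∈ Set.range (D.curve e')} with hR
  have hjoin : ∀ i j, ∀ w w' : W, Relation.EqvGen (adjQ m (QQ m ω i j)) w w' →
      w = w' ∨ ∃ (hw : WV m w) (hw' : WV m w'),
        JoinedIn (R i j) (D.pt ⟨w, hw⟩) (D.pt ⟨w', hw'⟩) := by
    intro i j w w' h
    induction h with
    | rel a b hab =>
      right
      obtain ⟨e, he, rfl, rfl⟩ := hab
      obtain ⟨e', u, v, h1, h2, h3⟩ := hedge i j e he
      have hV : EV m e := he.choose_spec.1
      refine ⟨WV_lo hm hV, WV_hi hm hV, ?_⟩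
      have h4 := D.joined e' u v h1
      have e1 : u = ⟨lo m e, WV_lo hm hV⟩ := Subtype.ext h2
      have e2 : v = ⟨hi m e, WV_hi hm hV⟩ := Subtype.ext h3
      rw [e1, e2] at h4
      apply h4.mono
      intro x hx
      right
      refine ⟨e, he, e', ?_, hx⟩
      rw [h1, Sym2.map_mk, h2, h3]
    | refl a => exact Or.inl rfl
    | symm a b _ ih =>
      rcases ih with rfl | ⟨hw, hw', h⟩
      · exact Or.inl rfl
      · exact Or.inr ⟨hw', hw, h.symm⟩
    | trans a b c _ _ ih1 ih2 =>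
      rcases ih1 with rfl | ⟨hw, hw', h⟩
      · exact ih2
      · rcases ih2 with rfl | ⟨hw2, hw2', h2⟩
        · exact Or.inr ⟨hw, hw', h⟩
        · exact Or.inr ⟨hw, hw2', h.trans h2⟩
  have hdisj : ∀ i j k l : Fin 3, i ≠ k → j ≠ l → ∀ x, x ∈ R i j → x ∈ R k l → False := by
    intro i j k l hik hjl x hx hx'
    have hik' : (i : ℕ) ≠ k := fun h => hik (Fin.ext h)
    have hjl' : (j : ℕ) ≠ l := fun h => hjl (Fin.ext h)
    have hUd := UU_disjoint (m := m) hm i.2 k.2 hik' hjl'
    -- a point of a curve is a vertex image or an interior point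
    have hcurve : ∀ i j, ∀ e ∈ QQ m ω i j, ∀ e' : H.edgeSet,
        Sym2.map Subtype.val e'.1 = s(lo m e, hi m e) → x ∈ Set.range (D.curve e') →
        (∃ w : {w : W // WV m w}, UU m i j w.1 ∧ x = D.pt w) ∨ x ∈ D.interior e' := by
      rintro i j e ⟨p, he⟩ e' h1 h2
      have hV : EV m e := he.1
      have h3 : e'.1 = s(⟨lo m e, WV_lo hm hV⟩, ⟨hi m e, WV_hi hm hV⟩) := by
        apply Sym2.map.injective Subtype.val_injective
        rw [h1]; rfl
      have hU := UU_part he
      rcases D.mem_curve e' _ _ h3 x h2 with h4 | h4 | h4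
      · exact Or.inl ⟨_, hU.1, h4⟩
      · exact Or.inl ⟨_, hU.2, h4⟩
      · exact Or.inr h4
    have hpt : ∀ w w' : {w : W // WV m w}, UU m i j w.1 → UU m k l w'.1 → x = D.pt w →
        x = D.pt w' → False := by
      intro w w' h1 h2 h3 h4
      have := D.pt_injective (h3.symm.trans h4)
      rw [this] at h1
      exact hUd _ h1 h2
    have hptc : ∀ (w : {w : W // WV m w}) (e' : H.edgeSet), x = D.pt w → x ∈ D.interior e' →
        False := by
      intro w e' h1 h2
      rw [h1] at h2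
      exact D.interior_avoids e' w h2
    have hx1 : (∃ w : {w : W // WV m w}, UU m i j w.1 ∧ x = D.pt w) ∨
        ∃ e ∈ QQ m ω i j, ∃ e' : H.edgeSet, Sym2.map Subtype.val e'.1 = s(lo m e, hi m e) ∧
          x ∈ D.interior e' := by
      rcases hx with hx | ⟨e, he, e', h1, h2⟩
      · exact Or.inl hx
      · rcases hcurve i j e he e' h1 h2 with h3 | h3
        · exact Or.inl h3
        · exact Or.inr ⟨e, he, e', h1, h3⟩
    have hx2 : (∃ w : {w : W // WV m w}, UU m k l w.1 ∧ x = D.pt w) ∨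
        ∃ e ∈ QQ m ω k l, ∃ e' : H.edgeSet, Sym2.map Subtype.val e'.1 = s(lo m e, hi m e) ∧
          x ∈ D.interior e' := by
      rcases hx' with hx | ⟨e, he, e', h1, h2⟩
      · exact Or.inl hx
      · rcases hcurve k l e he e' h1 h2 with h3 | h3
        · exact Or.inl h3
        · exact Or.inr ⟨e, he, e', h1, h3⟩
    rcases hx1 with ⟨w, hw, h1⟩ | ⟨e, he, e', h1, h2⟩
    · rcases hx2 with ⟨w', hw', h1'⟩ | ⟨f, hf, f', h1', h2'⟩
      · exact hpt w w' hw hw' h1 h1'
      · exact hptc w f' h1 h2'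
    · rcases hx2 with ⟨w', hw', h3⟩ | ⟨f, hf, f', h3, h4⟩
      · exact hptc w' e' h3 h2
      · obtain ⟨p, he⟩ := he
        obtain ⟨p', hf⟩ := hf
        apply hω2 i j k l p p' hik hjl e he f hf
        refine ⟨e', f', h1, h3, ?_, ⟨x, h2, h4⟩⟩
        intro hef
        rw [hef, h3, Sym2.eq_iff] at h1
        have hU := UU_part he
        have hU' := UU_part hf
        rcases h1 with ⟨h5, -⟩ | ⟨h5, -⟩
        · rw [h5] at hU'
          exact hUd _ hU.1 hU'.1
        · rw [h5] at hU'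
          exact hUd _ hU.2 hU'.1
  -- the nine paths
  have hstartA : ∀ i : Fin 3, WV m (startW m (ω (.rowA i)) i) := by
    intro i
    have hN := NN_pos m i
    have := div_lt_NN (m := m) (s := i) (by omega) (ω (.rowA i)).2
    exact ⟨by omega, by omega, by omega, by omega⟩
  have hstartB : ∀ j : Fin 3, WV m (startW m (ω (.rowB j)) (j + 3)) := by
    intro j
    have hN := NN_pos m (j + 3)
    have := div_lt_NN (m := m) (s := j + 3) (by omega) (ω (.rowB j)).2
    exact ⟨by omega, by omega, by omega, by omega⟩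
  have hpaths : ∀ i j : Fin 3, JoinedIn (R i j) (D.pt ⟨_, hstartA i⟩) (D.pt ⟨_, hstartB j⟩) := by
    intro i j
    rcases hjoin i j _ _ (QQ_conn hm ω i j) with h | ⟨hw, hw', h⟩
    · exfalso
      have h1 : (i : ℕ) = j + 3 := by
        unfold startW at h
        simp at h
        omega
      omega
    · exact h
  choose γ hγ using hpaths
  -- transfer to the complex plane
  have hcont : Continuous (fun p : ℝ × ℝ => Complex.equivRealProdCLM.symm p) :=
    Complex.equivRealProdCLM.symm.continuous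
  obtain ⟨i, k', j, l, hik, hjl, s, t, hst⟩ := vkf
    (fun i => Complex.equivRealProdCLM.symm (D.pt ⟨_, hstartA i⟩))
    (fun j => Complex.equivRealProdCLM.symm (D.pt ⟨_, hstartB j⟩))
    (fun i j => (γ i j).map hcont)
  have h1 : γ i j s = γ k' l t := by
    have h2 : Complex.equivRealProdCLM.symm (γ i j s) =
        Complex.equivRealProdCLM.symm (γ k' l t) := hst
    exact Complex.equivRealProdCLM.symm.injective h2
  exact hdisj i j k' l hik hjl _ (hγ i j s) (h1 ▸ hγ k' l t)

lemma exists_scale (k : ℕ) : ∃ m : ℕ, 0 < m ∧ 12150 * k * m + 45 * k < 2 ^ m := by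
  refine ⟨k + 50, by omega, ?_⟩
  have h1 : k < 2 ^ k := Nat.lt_two_pow_self
  induction k with
  | zero => norm_num
  | succ k ih =>
    have h2 := ih Nat.lt_two_pow_self
    have h3 : 2 ^ (k + 1 + 50) = 2 * 2 ^ (k + 50) := by
      rw [show k + 1 + 50 = (k + 50) + 1 by ring, pow_succ]; ring
    rw [h3]
    by_cases hk : k ≤ 1
    · interval_cases k <;> norm_num
    · have h4 : 2 ≤ k := by omega
      nlinarith

/-- **Main theorem**: `P(d, k)` fails for all `d ≥ 3` and all `k`. -/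
theorem not_P (d k : ℕ) (hd : 3 ≤ d) : ¬ PStatement d k := by
  intro hP
  obtain ⟨m, hm, hk⟩ := exists_scale k
  obtain ⟨F, -, hFc, hF⟩ := hP {w : W // WV m w} (GG m) (toroidal_GG hm)
    (fun v => (degree_le m v).trans hd)
  exact not_kplanar hm hk F hFc hF

end Pool.Agent.H47
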